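import Pool.Agent.Work.MP_8f87b2_h14.P5T
import Pool.Agent.Work.MP_8f87b2_h63.J4Pl

/-!
# MP_8f87b2_co: the rows P5 - J1, P5 - J4
-/

set_option autoImplicit false

namespace Pool.OddHC

open Finset Equiv BinaryTree Pool.Agent.Work.MP_8f87b2_co P5 P5W

variable {k q : ℕ} {F F' : Set (Cyc k)} {g g' : DG k} {S S1 : BinaryTree Unit}

namespace P5J

open H1 J1

theorem l1 {S : BinaryTree Unit} : comps (app S (o △ o)) = (comps S ++ [ch 1]) ++ [.nil] := by
  rw [comps_app, List.append_assoc]; rfl

theorem l2 {S : BinaryTree Unit} : comps ((.nil △ o) △ S) = oo :: comps S := rfl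

theorem l3 {S : BinaryTree Unit} : comps (app S ((.nil △ o) △ .nil)) = comps S ++ [oo] := by
  rw [comps_app]; rfl

theorem l4 {S : BinaryTree Unit} : comps (.nil △ (o △ S)) = .nil :: ch 1 :: comps S := rfl

theorem chn {n : ℕ} (h : n ≠ 0) : ch n ≠ .nil := by rw [Ne, ch_eq_nil]; exact h

/-- the four words in the list of J1 -/
theorem key1 {n : ℕ} (hn : 3 ≤ n) {L : List (BinaryTree Unit)} (hL : L ≠ []) : ∀ i < 20,
    (L ++ [ch 1]) ++ [.nil] ≠ jl n i ∧ oo :: L ≠ jl n i ∧ L ++ [oo] ≠ jl n i ∧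
      .nil :: ch 1 :: L ≠ jl n i := by
  intro i hi
  have n0 : ch n ≠ .nil := chn (by omega)
  have n0' : ch n ≠ oo := ch_oo n
  have n1 : ch (n + 1) ≠ .nil := chn (by omega)
  have n1' : ch (n + 1) ≠ oo := ch_oo _
  have m1 : ch 1 ≠ oo := ch_oo 1
  have m2 : ch 2 ≠ oo := ch_oo 2
  have m3 : ch 3 ≠ oo := ch_oo 3
  have k1 : ch n ≠ ch 1 := ch_ne_of (by omega)
  have k2 : ch (n + 1) ≠ ch 1 := ch_ne_of (by omega)
  have k3 : ch 2 ≠ ch 1 := ch_ne_of (by omega)
  have k4 : ch 3 ≠ ch 1 := ch_ne_of (by omega)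
  have p1 : ch 1 ≠ .nil := chn (by norm_num)
  have p2 : ch 2 ≠ .nil := chn (by norm_num)
  have p3 : ch 3 ≠ .nil := chn (by norm_num)
  have z1 : (BinaryTree.nil : BinaryTree Unit) ≠ oo := by simp [oo]
  have z2 : ∀ A, ch n △ A ≠ oo := fun A e => n0 (node_inj e).1
  have z3 : ∀ A, ch (n + 1) △ A ≠ oo := fun A e => n1 (node_inj e).1
  have z4 : .nil △ RR n ≠ oo := by
    intro e
    have := (node_inj e).2
    unfold RR at this
    exact n0 (node_inj this).1
  have z5 : .nil △ ch (n + 1) ≠ oo := by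
    intro e
    have := (node_inj e).2
    exact n0 (node_inj this).1
  have z6 : RR n ≠ oo := z2 _
  have z7 : RR n △ .nil ≠ oo := by
    intro e
    have := (node_inj e).1
    unfold RR at this
    exact absurd this (by simp)
  have z8 : RR n ≠ ch 1 := by
    intro e
    unfold RR at e
    exact n0 (node_inj e).1
  have z9 : ch 2 △ (.nil △ .nil) ≠ oo := fun e => absurd (node_inj e).1 p2
  have z10 : RR n ≠ .nil := by unfold RR; simp
  have z11 : ∀ A B : BinaryTree Unit, .nil ≠ A △ B := by intro A B; simp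
  refine ⟨?_, ?_, ?_, ?_⟩
  · intro e
    have e := congrArg List.reverse e
    have hL' : L.reverse ≠ [] := by simpa using hL
    interval_cases i <;>
      simp only [jl, List.reverse_append, List.reverse_cons, List.reverse_nil, List.nil_append,
        List.singleton_append, List.cons_append, List.cons.injEq] at e
    all_goals first
      | exact p1 e.1.symm
      | exact p2 e.1.symm
      | exact n0 e.1.symm
      | exact p3 e.1.symm
      | exact z11 _ _ e.1
      | exact p1 e.2.1
      | exact k3 e.2.1.symm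
      | exact z8 e.2.1.symm
      | exact k4 e.2.1.symm
      | exact z10 e.1.symm
  · intro e
    interval_cases i <;> simp only [jl, List.cons.injEq] at e
    all_goals first
      | exact n0' e.1.symm
      | exact z1 e.1.symm
      | exact z2 _ e.1.symm
      | exact m1 e.1.symm
      | exact z6 e.1.symm
      | exact z4 e.1.symm
      | exact z7 e.1.symm
      | exact m2 e.1.symm
      | exact n1' e.1.symm
      | exact z5 e.1.symm
      | exact z3 _ e.1.symm
  · intro e
    have e := congrArg List.reverse e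
    have hL' : L.reverse ≠ [] := by simpa using hL
    interval_cases i <;>
      simp only [jl, List.reverse_append, List.reverse_cons, List.reverse_nil, List.nil_append,
        List.singleton_append, List.cons_append, List.cons.injEq] at e
    all_goals first
      | exact m1 e.1.symm
      | exact z1 e.1.symm
      | exact hL' e.2
      | exact m2 e.1.symm
      | exact z6 e.1.symm
      | exact n0' e.1.symm
      | exact z9 e.1.symm
      | exact m3 e.1.symm
  · intro e
    interval_cases i <;> simp only [jl, List.cons.injEq] at e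
    all_goals first
      | exact n0 e.1.symm
      | exact k1 e.2.1.symm
      | exact z11 _ _ e.1
      | exact p1 e.1.symm
      | exact p1 e.2.1
      | exact z10 e.1.symm
      | exact z8 e.2.1.symm
      | exact p2 e.1.symm
      | exact n1 e.1.symm
      | exact k2 e.2.1.symm

/-- the four words in the list of J4 -/
theorem key4 {n : ℕ} (hn : 4 ≤ n) {L : List (BinaryTree Unit)} (hL : L ≠ []) : ∀ i < 20,
    (L ++ [ch 1]) ++ [.nil] ≠ jt n i ∧ oo :: L ≠ jt n i ∧ L ++ [oo] ≠ jt n i ∧
      .nil :: ch 1 :: L ≠ jt n i := by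
  intro i hi
  have n0 : ch n ≠ .nil := chn (by omega)
  have n0' : ch n ≠ oo := ch_oo n
  have n1 : ch (n + 1) ≠ .nil := chn (by omega)
  have n1' : ch (n + 1) ≠ oo := ch_oo _
  have m1 : ch 1 ≠ oo := ch_oo 1
  have m2 : ch 3 ≠ oo := ch_oo 3
  have m3 : ch 4 ≠ oo := ch_oo 4
  have k1 : ch n ≠ ch 1 := ch_ne_of (by omega)
  have k2 : ch (n + 1) ≠ ch 1 := ch_ne_of (by omega)
  have k3 : ch 3 ≠ ch 1 := ch_ne_of (by omega)
  have k4 : ch 4 ≠ ch 1 := ch_ne_of (by omega)
  have p1 : ch 1 ≠ .nil := chn (by norm_num)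
  have p2 : ch 3 ≠ .nil := chn (by norm_num)
  have p3 : ch 4 ≠ .nil := chn (by norm_num)
  have z1 : (BinaryTree.nil : BinaryTree Unit) ≠ oo := by simp [oo]
  have z2 : ∀ A, ch n △ A ≠ oo := fun A e => n0 (node_inj e).1
  have z3 : ∀ A, ch (n + 1) △ A ≠ oo := fun A e => n1 (node_inj e).1
  have z4 : .nil △ RS n ≠ oo := by
    intro e
    have := (node_inj e).2
    unfold RS at this
    exact n0 (node_inj this).1
  have z5 : .nil △ ch (n + 1) ≠ oo := by
    intro e
    have := (node_inj e).2
    exact n0 (node_inj this).1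
  have z6 : RS n ≠ oo := z2 _
  have z7 : RS n △ .nil ≠ oo := by
    intro e
    have := (node_inj e).1
    unfold RS at this
    exact absurd this (by simp)
  have z8 : RS n ≠ ch 1 := by
    intro e
    unfold RS at e
    exact n0 (node_inj e).1
  have z9 : ch 3 △ (.nil △ .nil) ≠ oo := fun e => absurd (node_inj e).1 p2
  have z10 : RS n ≠ .nil := by unfold RS; simp
  have z11 : ∀ A B : BinaryTree Unit, .nil ≠ A △ B := by intro A B; simp
  refine ⟨?_, ?_, ?_, ?_⟩
  · intro e
    have e := congrArg List.reverse e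
    have hL' : L.reverse ≠ [] := by simpa using hL
    interval_cases i <;>
      simp only [jt, List.reverse_append, List.reverse_cons, List.reverse_nil, List.nil_append,
        List.singleton_append, List.cons_append, List.cons.injEq] at e
    all_goals first
      | exact p1 e.1.symm
      | exact p2 e.1.symm
      | exact n0 e.1.symm
      | exact p3 e.1.symm
      | exact z11 _ _ e.1
      | exact p1 e.2.1
      | exact k3 e.2.1.symm
      | exact z8 e.2.1.symm
      | exact k4 e.2.1.symm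
      | exact z10 e.1.symm
  · intro e
    interval_cases i <;> simp only [jt, List.cons.injEq] at e
    all_goals first
      | exact n0' e.1.symm
      | exact z1 e.1.symm
      | exact z2 _ e.1.symm
      | exact m1 e.1.symm
      | exact z6 e.1.symm
      | exact z4 e.1.symm
      | exact z7 e.1.symm
      | exact m2 e.1.symm
      | exact n1' e.1.symm
      | exact z5 e.1.symm
      | exact z3 _ e.1.symm
  · intro e
    have e := congrArg List.reverse e
    have hL' : L.reverse ≠ [] := by simpa using hL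
    interval_cases i <;>
      simp only [jt, List.reverse_append, List.reverse_cons, List.reverse_nil, List.nil_append,
        List.singleton_append, List.cons_append, List.cons.injEq] at e
    all_goals first
      | exact m1 e.1.symm
      | exact z1 e.1.symm
      | exact hL' e.2
      | exact m2 e.1.symm
      | exact z6 e.1.symm
      | exact n0' e.1.symm
      | exact z9 e.1.symm
      | exact m3 e.1.symm
  · intro e
    interval_cases i <;> simp only [jt, List.cons.injEq] at e
    all_goals first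
      | exact n0 e.1.symm
      | exact k1 e.2.1.symm
      | exact z11 _ _ e.1
      | exact p1 e.1.symm
      | exact p1 e.2.1
      | exact z10 e.1.symm
      | exact z8 e.2.1.symm
      | exact p2 e.1.symm
      | exact n1 e.1.symm
      | exact k2 e.2.1.symm

end P5J

open P5J

/-- **P5 - J1** -/
theorem TyP5D.r_J1 (h : TyP5D S F g) (h' : J1.TyJs F' g') (hd : ∀ c ∈ F, c ∉ F') (hE : EdIn F g') :
    ∀ w ∈ g.B, w ∉ g'.B := by
  obtain ⟨n, h1, -, h3, -⟩ := h'.words
  refine h.row' hd hE ?_ ?_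
  · intro w hw _ e
    obtain ⟨i, hi, e1⟩ := h3 w hw
    rw [e, l1] at e1
    exact (key1 h1 (comps_ne h.1.ne) i hi).1 e1
  · intro w hw _ e
    obtain ⟨i, hi, e1⟩ := h3 w hw
    rw [e, l2] at e1
    exact (key1 h1 (comps_ne h.1.ne) i hi).2.1 e1

/-- **P5M - J1** -/
theorem TyP5MD.r_J1 (h : TyP5MD S F g) (h' : J1.TyJs F' g') (hd : ∀ c ∈ F, c ∉ F') (hE : EdIn F g') :
    ∀ w ∈ g.B, w ∉ g'.B := by
  obtain ⟨n, h1, -, h3, -⟩ := h'.words
  refine h.row' hd hE ?_ ?_
  · intro w hw _ e
    obtain ⟨i, hi, e1⟩ := h3 w hw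
    rw [e, l4] at e1
    exact (key1 h1 (comps_ne h.1.ne) i hi).2.2.2 e1
  · intro w hw _ e
    obtain ⟨i, hi, e1⟩ := h3 w hw
    rw [e, l3] at e1
    exact (key1 h1 (comps_ne h.1.ne) i hi).2.2.1 e1

theorem mir_ne0 {S : BinaryTree Unit} (h : S ≠ .nil) : Tsq.mir S ≠ .nil := J1.mir_ne_t h

theorem mir_l1 (S : BinaryTree Unit) : Tsq.mir (app S (o △ o)) = .nil △ (o △ Tsq.mir S) := by
  have h0 : Tsq.mir BinaryTree.nil = BinaryTree.nil := rfl
  simp only [o, Tsq.mir_node, Tsq.mir_app, h0, app, app_assoc']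

theorem mir_l2 (S : BinaryTree Unit) : Tsq.mir ((.nil △ o) △ S) = app (Tsq.mir S) ((.nil △ o) △ .nil) := by
  have h0 : Tsq.mir BinaryTree.nil = BinaryTree.nil := rfl
  simp only [o, Tsq.mir_node, h0, app]

theorem mir_l3 (S : BinaryTree Unit) : Tsq.mir (app S ((.nil △ o) △ .nil)) = (.nil △ o) △ Tsq.mir S := by
  have h0 : Tsq.mir BinaryTree.nil = BinaryTree.nil := rfl
  simp only [o, Tsq.mir_node, Tsq.mir_app, h0, app, app_assoc']

theorem mir_l4 (S : BinaryTree Unit) : Tsq.mir (.nil △ (o △ S)) = app (Tsq.mir S) (o △ o) := by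
  have h0 : Tsq.mir BinaryTree.nil = BinaryTree.nil := rfl
  simp only [o, Tsq.mir_node, h0, app, app_assoc']

/-- **P5 - J4** -/
theorem TyP5D.r_J4 (h : TyP5D S F g) (h' : J1.TyJt F' g') (hd : ∀ c ∈ F, c ∉ F') (hE : EdIn F g') :
    ∀ w ∈ g.B, w ∉ g'.B := by
  obtain ⟨n, h1, -, h3, -⟩ := h'.words
  have hm := comps_ne (mir_ne0 h.1.ne)
  refine h.row' hd hE ?_ ?_
  · intro w hw _ e
    obtain ⟨i, hi, e1⟩ := h3 w hw
    rw [e, mir_l1, l4] at e1
    exact (key4 h1 hm i hi).2.2.2 e1
  · intro w hw _ e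
    obtain ⟨i, hi, e1⟩ := h3 w hw
    rw [e, mir_l2, l3] at e1
    exact (key4 h1 hm i hi).2.2.1 e1

/-- **P5M - J4** -/
theorem TyP5MD.r_J4 (h : TyP5MD S F g) (h' : J1.TyJt F' g') (hd : ∀ c ∈ F, c ∉ F') (hE : EdIn F g') :
    ∀ w ∈ g.B, w ∉ g'.B := by
  obtain ⟨n, h1, -, h3, -⟩ := h'.words
  have hm := comps_ne (mir_ne0 h.1.ne)
  refine h.row' hd hE ?_ ?_
  · intro w hw _ e
    obtain ⟨i, hi, e1⟩ := h3 w hw
    rw [e, mir_l4, l1] at e1
    exact (key4 h1 hm i hi).1 e1
  · intro w hw _ e
    obtain ⟨i, hi, e1⟩ := h3 w hw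
    rw [e, mir_l3, l2] at e1
    exact (key4 h1 hm i hi).2.1 e1

end Pool.OddHC
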