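import Pool.Agent.Work.MP_8f87b2_h14.P5W

/-!
# MP_8f87b2_co: the rows P5 - A, Rq, Sq (and P5M)
-/

set_option autoImplicit false

namespace Pool.OddHC

open Finset Equiv BinaryTree Pool.Agent.Work.MP_8f87b2_co P5 P5W

variable {k q : ℕ} {F F' : Set (Cyc k)} {g g' : DG k} {S : BinaryTree Unit}

/-- the condition of the row Ed - A: a part 2 or 3 in `R` if `c = 3` -/
def A3 (F : Set (Cyc k)) : Prop :=
  ∀ (q : ℕ) (B1 H s B : BinaryTree Unit) (w0 : OddHC.X k), H1.NodeG k q B1 H s B →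
    F = {cyc (H1.gX q B1 H s B w0 0)} → q = 0 →
    2 ∈ cont (H1.gR B1 H s B) ∨ 3 ∈ cont (H1.gR B1 H s B)

theorem PD.n23 (h : PD S) : ¬ (2 ∈ OddHC.cont S ∨ 3 ∈ OddHC.cont S) := by
  have h2 := h.c2
  have h3 := h.c3
  rw [Multiset.count_eq_zero] at h2 h3
  tauto

/-! ### A -/

theorem A_pw (hS : PD S) (h' : TyA F' g') (hc : A3 F') : ∀ w ∈ g'.B, w.1 ≠ (.nil △ o) △ S := by
  obtain ⟨q, B1, H, s, B, w0, h1, rfl, rfl⟩ := h'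
  intro w hw e
  obtain ⟨i, hi, rfl⟩ := mem_gad20.1 hw
  rw [h1.word w0 hi] at e
  obtain ⟨-, hq, hR⟩ := pw_W (pwG h1) hS.ne hi e
  have := hc q B1 H s B w0 h1 rfl hq
  rw [hR] at this
  exact hS.n23 this

theorem A_pm (hS : PD S) (h' : TyA F' g') (hc : A3 F') : ∀ w ∈ g'.B, w.1 ≠ app S ((.nil △ o) △ .nil) := by
  obtain ⟨q, B1, H, s, B, w0, h1, rfl, rfl⟩ := h'
  intro w hw e
  obtain ⟨i, hi, rfl⟩ := mem_gad20.1 hw
  rw [h1.word w0 hi] at e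
  obtain ⟨-, hq, hB, hR⟩ := pm_W (pwG h1) hS.ne hi e
  have := hc q B1 H s B w0 h1 rfl hq
  have hd := h1.dat.cont
  have hB' : OddHC.cont B = 0 := by rw [hB]; rfl
  rw [hB', zero_add, hR] at hd
  rw [← hd] at this
  exact hS.n23 this

/-- **P5 - A** -/
theorem TyP5D.r_A (h : TyP5D S F g) (h' : TyA F' g') (hd : ∀ c ∈ F, c ∉ F') (hE : EdIn F g')
    (hc : A3 F') : ∀ w ∈ g.B, w ∉ g'.B := by
  refine h.row' hd hE ?_ (fun w hw _ => A_pw h.1 h' hc w hw)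
  obtain ⟨q, B1, H, s, B, w0, h1, rfl, rfl⟩ := h'
  intro w hw _ e
  obtain ⟨i, hi, rfl⟩ := mem_gad20.1 hw
  exact (h1.al h.1.ne h.1.fb h.1.lb w0 hi).2.1 e

/-- **P5M - A** -/
theorem TyP5MD.r_A (h : TyP5MD S F g) (h' : TyA F' g') (hd : ∀ c ∈ F, c ∉ F') (hE : EdIn F g')
    (hc : A3 F') : ∀ w ∈ g.B, w ∉ g'.B := by
  refine h.row' hd hE ?_ (fun w hw _ => A_pm h.1 h' hc w hw)
  obtain ⟨q, B1, H, s, B, w0, h1, rfl, rfl⟩ := h'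
  intro w hw _ e
  obtain ⟨i, hi, rfl⟩ := mem_gad20.1 hw
  exact (h1.al h.1.ne h.1.fb h.1.lb w0 hi).2.2 e

/-! ### Rq, Sq -/

theorem NodeM_pw {R B S1 : BinaryTree Unit} (h1 : HM.NodeM k q R B S1) (hS : PD S) (w0 : X k) {i : ℕ}
    (hi : i < 20) : (H1.wX R B S1 q w0 i).1 ≠ (.nil △ o) △ S ∧
      (H1.wX R B S1 q w0 i).1 ≠ app S ((.nil △ o) △ .nil) := by
  rw [H1.wX_eq h1.dat h1.size w0 hi]
  constructor
  · intro e
    obtain ⟨-, hq, hR⟩ := pw_W (pwM h1) hS.ne hi e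
    have h3 := h1.memw.resolve_right fun g1 => absurd g1.1 (by omega)
    rw [hq, hR] at h3
    exact hS.n23 (Or.inr h3)
  · intro e
    obtain ⟨-, hq, hB, hR⟩ := pm_W (pwM h1) hS.ne hi e
    have h3 := h1.memw.resolve_right fun g1 => absurd g1.1 (by omega)
    rw [hq, ← h1.eq, hB, hR] at h3
    have : OddHC.cont (BinaryTree.nil : BinaryTree Unit) = 0 := rfl
    rw [this, zero_add] at h3
    exact hS.n23 (Or.inr h3)

/-- **P5 - Rq** -/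
theorem TyP5D.r_Rq (h : TyP5D S F g) (h' : TyRq q F' g') (hd : ∀ c ∈ F, c ∉ F') (hE : EdIn F g') :
    ∀ w ∈ g.B, w ∉ g'.B := by
  refine h.row' hd hE ?_ ?_
  · intro w hw _ e
    obtain ⟨R, B, S1, w0, i, h1, hi, rfl, -⟩ := h'.words w hw
    exact (h1.rL h.1.ne h.1.fb h.1.lb w0 hi).2.1 e
  · intro w hw _ e
    obtain ⟨R, B, S1, w0, i, h1, hi, rfl, -⟩ := h'.words w hw
    exact (NodeM_pw h1 h.1 w0 hi).1 e

/-- **P5M - Rq** -/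
theorem TyP5MD.r_Rq (h : TyP5MD S F g) (h' : TyRq q F' g') (hd : ∀ c ∈ F, c ∉ F') (hE : EdIn F g') :
    ∀ w ∈ g.B, w ∉ g'.B := by
  refine h.row' hd hE ?_ ?_
  · intro w hw _ e
    obtain ⟨R, B, S1, w0, i, h1, hi, rfl, -⟩ := h'.words w hw
    exact (h1.rL h.1.ne h.1.fb h.1.lb w0 hi).2.2 e
  · intro w hw _ e
    obtain ⟨R, B, S1, w0, i, h1, hi, rfl, -⟩ := h'.words w hw
    exact (NodeM_pw h1 h.1 w0 hi).2 e

/-- **P5 - Sq** -/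
theorem TyP5D.r_Sq (h : TyP5D S F g) (h' : TySq q F' g') (hd : ∀ c ∈ F, c ∉ F') (hE : EdIn F g') :
    ∀ w ∈ g.B, w ∉ g'.B := by
  refine h.row' hd hE ?_ ?_
  · intro w hw _ e
    obtain ⟨R, B, S1, w0, i, h1, hi, rfl, -⟩ := h'.words' w hw
    exact (h1.rL h.1.ne h.1.fb h.1.lb w0 hi).2.1 e
  · intro w hw _ e
    obtain ⟨R, B, S1, w0, i, h1, hi, rfl, -⟩ := h'.words' w hw
    exact (NodeM_pw h1 h.1 w0 hi).1 e

/-- **P5M - Sq** -/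
theorem TyP5MD.r_Sq (h : TyP5MD S F g) (h' : TySq q F' g') (hd : ∀ c ∈ F, c ∉ F') (hE : EdIn F g') :
    ∀ w ∈ g.B, w ∉ g'.B := by
  refine h.row' hd hE ?_ ?_
  · intro w hw _ e
    obtain ⟨R, B, S1, w0, i, h1, hi, rfl, -⟩ := h'.words' w hw
    exact (h1.rL h.1.ne h.1.fb h.1.lb w0 hi).2.2 e
  · intro w hw _ e
    obtain ⟨R, B, S1, w0, i, h1, hi, rfl, -⟩ := h'.words' w hw
    exact (NodeM_pw h1 h.1 w0 hi).2 e

/-! ### R3, S3 -/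

theorem TyP5D.r_R3 (h : TyP5D S F g) (h' : TyR3 F' g') (hd : ∀ c ∈ F, c ∉ F') (hE : EdIn F g') :
    ∀ w ∈ g.B, w ∉ g'.B := h.r_Rq h'.toRq hd hE

theorem TyP5MD.r_R3 (h : TyP5MD S F g) (h' : TyR3 F' g') (hd : ∀ c ∈ F, c ∉ F') (hE : EdIn F g') :
    ∀ w ∈ g.B, w ∉ g'.B := h.r_Rq h'.toRq hd hE

theorem TyP5D.r_S3 (h : TyP5D S F g) (h' : TyS3 F' g') (hd : ∀ c ∈ F, c ∉ F') (hE : EdIn F g') :
    ∀ w ∈ g.B, w ∉ g'.B := h.r_Sq h'.toSq hd hE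

theorem TyP5MD.r_S3 (h : TyP5MD S F g) (h' : TyS3 F' g') (hd : ∀ c ∈ F, c ∉ F') (hE : EdIn F g') :
    ∀ w ∈ g.B, w ∉ g'.B := h.r_Sq h'.toSq hd hE

/-! ### P5 - P5 -/

theorem wR_inj3 {S S1 : BinaryTree Unit} (h : (BinaryTree.nil △ o) △ S = (.nil △ o) △ S1) : S = S1 :=
  (H1.node_inj h).2

end Pool.OddHC
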