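import Pool.Agent.Work.MP_8f87b2_h14.P5R
import Pool.Agent.Work.MP_8f87b2_h62.W3f

/-!
# MP_8f87b2_co: the rows P5 - T, P5 - P5
-/

set_option autoImplicit false

namespace Pool.OddHC

open Finset Equiv BinaryTree Pool.Agent.Work.MP_8f87b2_co P5 P5W

variable {k q : ℕ} {F F' : Set (Cyc k)} {g g' : DG k} {S S1 : BinaryTree Unit}

namespace P5W

theorem Pw.of' {R B S : BinaryTree Unit} (hR : R ≠ .nil) (hS : S ≠ .nil) (h1 : R ≠ .nil △ .nil)
    (h2 : S ≠ .nil △ .nil) (h3 : R ≠ oo) (h4 : S ≠ oo) (h5 : B ≠ oo) (k1 : oo ∉ comps R)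
    (k2 : oo ∉ comps B) (k3 : oo ∉ comps S) : Pw R B S := by
  have f : ∀ {T : BinaryTree Unit}, oo ∉ comps T → ∀ Y, comps T ≠ oo :: Y := by
    intro T hT Y e
    exact hT (by rw [e]; simp)
  have l : ∀ {T : BinaryTree Unit}, oo ∉ comps T → ∀ Y, comps T ≠ Y ++ [oo] := by
    intro T hT Y e
    exact hT (by rw [e]; simp)
  exact ⟨hR, hS, h1, h2, h3, h4, h5, f k1, f k2, f k3, l k1, l k2, l k3⟩

theorem comps_lv (n : ℕ) (t : BinaryTree Unit) : comps (lv n t) = List.replicate n .nil ++ comps t := by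
  induction n with
  | zero => rfl
  | succ n ih =>
    rw [lv, comps_node, ih]
    rfl

theorem comps_lv2 (n : ℕ) (t : BinaryTree Unit) :
    comps (lv2 n t) = List.replicate n (.nil △ .nil) ++ comps t := by
  induction n with
  | zero => rfl
  | succ n ih =>
    change comps ((.nil △ .nil) △ lv2 n t) = _
    rw [comps_node, ih]
    rfl

theorem comps_th (n : ℕ) (t : BinaryTree Unit) :
    comps (H1.th n t) = List.replicate n ((.nil △ .nil) △ .nil) ++ comps t := by
  induction n with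
  | zero => rfl
  | succ n ih =>
    rw [H1.th, comps_node, ih]
    rfl

theorem pwT (b m a : ℕ) : Pw (H1.R3 b m a) (H1.th b .nil) (H1.S3 m a) := by
  have n1 : oo ≠ ((.nil △ .nil) △ .nil : BinaryTree Unit) := by
    intro e
    exact absurd (H1.node_inj e).1 (by simp)
  have n2 : oo ≠ (.nil △ .nil : BinaryTree Unit) := by
    intro e
    exact absurd (H1.node_inj e).2 (by simp)
  have kB : oo ∉ comps (H1.th b .nil) := by
    rw [comps_th]
    intro h
    simp only [comps, List.append_nil] at h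
    exact n1 (List.eq_of_mem_replicate h)
  have kL : oo ∉ comps (H1.L3 m a) := by
    unfold H1.L3
    rw [comps_lv, comps_lv2]
    intro h
    simp only [comps, List.append_nil, List.mem_append] at h
    rcases h with h | h
    · exact absurd (List.eq_of_mem_replicate h) (by simp [oo])
    · exact n2 (List.eq_of_mem_replicate h)
  refine Pw.of' (by simp [H1.R3]) (by simp [H1.S3]) ?_ ?_ ?_ ?_ ?_ ?_ kB ?_
  · intro e
    exact absurd (H1.node_inj e).1 (by simp)
  · intro e
    exact absurd (H1.node_inj e).1 (by simp)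
  · intro e
    exact absurd (H1.node_inj e).1 (by simp)
  · intro e
    exact absurd (H1.node_inj e).1 (by simp)
  · cases b with
    | zero => simp [H1.th]
    | succ b =>
      intro e
      exact absurd (H1.node_inj e).1 (by simp)
  · change oo ∉ _ :: comps (H1.th b .nil)
    intro h
    rcases List.mem_cons.1 h with h | h
    · exact absurd (H1.node_inj h).1 (by simp)
    · exact kB h
  · change oo ∉ _ :: comps (H1.L3 m a)
    intro h
    rcases List.mem_cons.1 h with h | h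
    · exact n1 h
    · exact kL h

end P5W

theorem T_pw {b m a i : ℕ} (hS : PD S) (hi : i < 20) : H1.w3 b m a i ≠ (.nil △ o) △ S ∧
    H1.w3 b m a i ≠ app S ((.nil △ o) △ .nil) := by
  constructor
  · intro e
    obtain ⟨-, -, hR⟩ := pw_W (q := 0) (pwT b m a) hS.ne hi e
    apply hS.n23
    right
    rw [← hR, H1.cont_R3]
    simp
  · intro e
    obtain ⟨-, -, hB, hR⟩ := pm_W (q := 0) (pwT b m a) hS.ne hi e
    apply hS.n23
    right
    rw [← hR]
    have e2 : OddHC.cont (H1.S3 m a) = OddHC.cont (((.nil △ .nil) △ .nil) △ H1.L3 m a) := rfl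
    rw [e2, cont_node, Multiset.mem_add]
    left
    decide

/-- **P5 - T** -/
theorem TyP5D.r_T (h : TyP5D S F g) (h' : TyT F' g') (hd : ∀ c ∈ F, c ∉ F') (hE : EdIn F g') :
    ∀ w ∈ g.B, w ∉ g'.B := by
  refine h.row' hd hE ?_ ?_
  · intro w hw _ e
    obtain ⟨b, m, a, i, h1, hi, e1⟩ := h'.word hw
    exact H1.t3_Ytb h1.pos hi h.1.fb h.1.ne (e1.symm.trans e)
  · intro w hw _ e
    obtain ⟨b, m, a, i, h1, hi, e1⟩ := h'.word hw
    exact (T_pw h.1 hi).1 (e1.symm.trans e)

/-- **P5M - T** -/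
theorem TyP5MD.r_T (h : TyP5MD S F g) (h' : TyT F' g') (hd : ∀ c ∈ F, c ∉ F') (hE : EdIn F g') :
    ∀ w ∈ g.B, w ∉ g'.B := by
  refine h.row' hd hE ?_ ?_
  · intro w hw _ e
    obtain ⟨b, m, a, i, h1, hi, e1⟩ := h'.word hw
    exact H1.t3_btY h1.mpos hi (e1.symm.trans e)
  · intro w hw _ e
    obtain ⟨b, m, a, i, h1, hi, e1⟩ := h'.word hw
    exact (T_pw h.1 hi).2 (e1.symm.trans e)

/-! ### P5 - P5 -/

theorem len_wR14 (hS : S ≠ .nil) : (comps (wR S 0)).length = 1 ∧ ∀ i, i ≠ 0 → 2 ≤ (comps (wR S i)).length := by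
  have h1 := List.length_pos_iff.2 (comps_ne hS)
  refine ⟨rfl, ?_⟩
  intro i hi
  match i with
  | 0 => exact absurd rfl hi
  | 1 => simp [wR, comps_node, comps, o]
  | 2 =>
    change 2 ≤ (comps (app S (o △ o))).length
    rw [comps_app, List.length_append]
    simp [comps_node, comps, o]
  | 3 =>
    change 2 ≤ (comps ((.nil △ o) △ S)).length
    rw [comps_node, List.length_cons]
    omega
  | (n + 4) => simp [wR, comps_node, comps]

theorem len_wM14 (hS : S ≠ .nil) : (comps (wM S 0)).length = 1 ∧ ∀ i, i ≠ 0 → 2 ≤ (comps (wM S i)).length := by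
  have h1 := List.length_pos_iff.2 (comps_ne hS)
  refine ⟨rfl, ?_⟩
  intro i hi
  match i with
  | 0 => exact absurd rfl hi
  | 1 => simp [wM, comps_node, comps, o]
  | 2 =>
    change 2 ≤ (comps (app S ((.nil △ o) △ .nil))).length
    rw [comps_app, List.length_append]
    simp only [comps_node, comps, List.length_cons, List.length_nil]
    omega
  | 3 =>
    change 2 ≤ (comps (.nil △ (o △ S))).length
    simp [comps_node]
  | (n + 4) => simp [wM, comps_node, comps, o]

/-- the words of a P5 gadget: old (one component), new (at least two) -/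
theorem TyP5D.old' (h : TyP5D S F g) : ∀ x ∈ g.B, cyc x ∉ F → x.1 = wR S 0 := by
  intro x hx hc
  rcases h.mem x hx with ⟨e, -⟩ | ⟨h1, -⟩
  · exact e
  · exact absurd h1 hc

theorem TyP5D.new' (h : TyP5D S F g) : ∀ x ∈ g.B, cyc x ∈ F → 2 ≤ (comps x.1).length := by
  intro x hx hc
  rcases h.mem x hx with ⟨-, h1⟩ | ⟨h1, e | e | e | e⟩
  · exact absurd hc h1
  all_goals
    rw [e]
    exact (len_wR14 h.1.ne).2 _ (by norm_num)

theorem TyP5MD.old' (h : TyP5MD S F g) : ∀ x ∈ g.B, cyc x ∉ F → x.1 = wM S 0 := by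
  intro x hx hc
  rcases h.mem x hx with ⟨e, -⟩ | ⟨h1, -⟩
  · exact e
  · exact absurd h1 hc

theorem TyP5MD.new' (h : TyP5MD S F g) : ∀ x ∈ g.B, cyc x ∈ F → 2 ≤ (comps x.1).length := by
  intro x hx hc
  rcases h.mem x hx with ⟨-, h1⟩ | ⟨h1, e | e | e | e⟩
  · exact absurd hc h1
  all_goals
    rw [e]
    exact (len_wM14 h.1.ne).2 _ (by norm_num)

/-- **P5 - P5** -/
theorem TyP5D.r_P5 (h : TyP5D S F g) (h' : TyP5D S1 F' g') (hd : ∀ c ∈ F, c ∉ F') :
    ∀ w ∈ g.B, w ∉ g'.B := by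
  intro w hw hw'
  by_cases h1 : cyc w ∈ F
  · have h2 := h.new' w hw h1
    rw [h'.old' w hw' (hd _ h1), (len_wR14 h'.1.ne).1] at h2
    omega
  · have e1 := h.old' w hw h1
    by_cases h2 : cyc w ∈ F'
    · have h3 := h'.new' w hw' h2
      rw [e1, (len_wR14 h.1.ne).1] at h3
      omega
    · have e2 := h'.old' w hw' h2
      rw [e1] at e2
      have e3 : S = S1 := (H1.node_inj (H1.node_inj (H1.node_inj e2).1).2).1
      subst e3
      obtain ⟨-, u, hu, -, hF, -⟩ := h
      obtain ⟨-, u', hu', -, hF', -⟩ := h'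
      have e4 : u 1 = u' 1 := Subtype.ext ((hu 1 (by norm_num)).trans (hu' 1 (by norm_num)).symm)
      apply hd (cyc (u 1))
      · rw [hF]; simp [F4]
      · rw [hF', e4]; simp [F4]

/-- **P5M - P5M** -/
theorem TyP5MD.r_P5M (h : TyP5MD S F g) (h' : TyP5MD S1 F' g') (hd : ∀ c ∈ F, c ∉ F') :
    ∀ w ∈ g.B, w ∉ g'.B := by
  intro w hw hw'
  by_cases h1 : cyc w ∈ F
  · have h2 := h.new' w hw h1
    rw [h'.old' w hw' (hd _ h1), (len_wM14 h'.1.ne).1] at h2
    omega
  · have e1 := h.old' w hw h1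
    by_cases h2 : cyc w ∈ F'
    · have h3 := h'.new' w hw' h2
      rw [e1, (len_wM14 h.1.ne).1] at h3
      omega
    · have e2 := h'.old' w hw' h2
      rw [e1] at e2
      have e3 : S = S1 := (H1.node_inj (H1.node_inj e2).1).1
      subst e3
      obtain ⟨-, u, hu, -, hF, -⟩ := h
      obtain ⟨-, u', hu', -, hF', -⟩ := h'
      have e4 : u 1 = u' 1 := Subtype.ext ((hu 1 (by norm_num)).trans (hu' 1 (by norm_num)).symm)
      apply hd (cyc (u 1))
      · rw [hF]; simp [F4]
      · rw [hF', e4]; simp [F4]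

/-- **P5 - P5M** -/
theorem TyP5D.r_P5M (h : TyP5D S F g) (h' : TyP5MD S1 F' g') (hd : ∀ c ∈ F, c ∉ F') :
    ∀ w ∈ g.B, w ∉ g'.B := by
  intro w hw hw'
  by_cases h1 : cyc w ∈ F
  · have h2 := h.new' w hw h1
    rw [h'.old' w hw' (hd _ h1), (len_wM14 h'.1.ne).1] at h2
    omega
  · have e1 := h.old' w hw h1
    by_cases h2 : cyc w ∈ F'
    · have h3 := h'.new' w hw' h2
      rw [e1, (len_wR14 h.1.ne).1] at h3
      omega
    · have e2 := h'.old' w hw' h2
      rw [e1] at e2
      have e3 := (H1.node_inj e2).1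
      exact h'.1.ne (H1.node_inj e3).1.symm

end Pool.OddHC
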