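import Pool.Agent.Work.MP_8f87b2_h14.P5S
import Pool.Agent.Work.MP_8f87b2_h43.JVE
import Pool.Agent.Work.MP_8f87b2_h16.MV
import Pool.Agent.Work.MP_8f87b2_h25.JETy
import Pool.Agent.Work.MP_8f87b2_h84.JEMde

/-!
# MP_8f87b2_co: the rows P5 - JV, JVm, JE, JEM (and P5M)

The only possible common words: `S(())() = X'()` (P5 - JV, `X' = S(())`), `()(())S = ()X'` (P5M - JVm, `X' = (())S`).
-/

set_option autoImplicit false

namespace Pool.OddHC

open Finset Equiv BinaryTree Pool.Agent.Work.MP_8f87b2_co P5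

variable {k q : ℕ} {F F' : Set (Cyc k)} {g g' : DG k} {S Z : BinaryTree Unit}

namespace P5V

theorem ex_cs : ∀ L : List (BinaryTree Unit), ∃ T, comps T = L := by
  intro L
  induction L with
  | nil => exact ⟨.nil, rfl⟩
  | cons a l ih =>
    obtain ⟨T, hT⟩ := ih
    exact ⟨a △ T, by rw [comps_node, hT]⟩

theorem fstS (h : H1.fb S = false) {L : List (BinaryTree Unit)} : comps S ≠ .nil :: L := by
  intro e
  obtain ⟨T, hT⟩ := ex_cs L
  have e1 : S = .nil △ T := comps_inj (by rw [e, comps_node, hT])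
  rw [e1] at h
  exact absurd h (by simp [H1.fb, H1.isNil])

theorem lstS (h : H1.lastB S = false) {L : List (BinaryTree Unit)} : comps S ≠ L ++ [.nil] := by
  intro e
  obtain ⟨T, hT⟩ := ex_cs L
  have e1 : S = app T (.nil △ .nil) := comps_inj (by rw [e, comps_app, hT]; rfl)
  rw [e1, H1.lastB_app (by simp)] at h
  exact absurd h (by simp [H1.lastB, H1.isNil])

theorem las {L L' : List (BinaryTree Unit)} {a b : BinaryTree Unit} (h : L ++ [a] = L' ++ [b]) :
    L = L' ∧ a = b := by
  have := List.append_inj' h rfl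
  exact ⟨this.1, by simpa using this.2⟩

theorem one {L : List (BinaryTree Unit)} {a b : BinaryTree Unit} (hL : L ≠ []) : L ++ [a] ≠ [b] := by
  intro e
  exact hL (las (L' := []) e).1

theorem w1c : comps (app S (o △ o)) = (comps S ++ [o]) ++ [.nil] := by
  rw [comps_app, List.append_assoc]; rfl

theorem w2c : comps ((.nil △ o) △ S) = (.nil △ o) :: comps S := rfl

theorem w3c : comps (app S ((.nil △ o) △ .nil)) = comps S ++ [.nil △ o] := by
  rw [comps_app]; rfl

theorem w4c : comps (.nil △ (o △ S)) = .nil :: o :: comps S := rfl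

theorem o_ne : o ≠ .nil := by simp [o]

theorem oo_ne : (.nil △ o : BinaryTree Unit) ≠ .nil := by simp

/-! ### JV -/

theorem jv1 (hS : PD S) (h2 : 2 ≤ ht Z) {w : BinaryTree Unit} (hw : JVW.OldW Z w)
    (hx : xT Z ≠ app S (o △ .nil)) : w ≠ app S (o △ o) := by
  rintro rfl
  have hc := comps_ne hS.ne
  have hc' : comps S ++ [o] ≠ [] := by simp
  unfold JVW.OldW at hw
  rw [w1c] at hw
  rcases hw with e | e | e | e | e | e | e
  · exact one hc' e
  · exact one hc' e
  · exact one hc' e
  · have e1 := (las (L' := [Z]) e).1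
    exact one hc e1
  · exact one hc' e
  · have e1 := (las (L' := (Tsq.sq Z).1 :: comps (Tsq.sq Z).2) e).1
    apply hx
    apply comps_inj
    rw [JVW.comps_xT, ← e1, comps_app]
    rfl
  · cases h : comps S with
    | nil => exact hc h
    | cons a l =>
      rw [h, List.cons_append, List.cons_append, List.cons.injEq] at e
      exact fstS hS.fb (L := l) (by rw [h, e.1])

theorem jv2 (hS : PD S) (h2 : 2 ≤ ht Z) {w : BinaryTree Unit} (hw : JVW.OldW Z w) :
    w ≠ (.nil △ o) △ S := by
  rintro rfl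
  have hc := comps_ne hS.ne
  obtain ⟨a, l, h⟩ := List.exists_cons_of_ne_nil hc
  unfold JVW.OldW at hw
  rw [w2c] at hw
  rcases hw with e | e | e | e | e | e | e
  · exact hc (List.cons.inj e).2
  · exact hc (List.cons.inj e).2
  · exact hc (List.cons.inj e).2
  · exact fstS hS.fb (List.cons.inj e).2
  · exact hc (List.cons.inj e).2
  · have e1 := (List.cons.inj e).1
    have e2 := (JVW.sq1 h2).1
    rw [← e1] at e2
    have e3 : ht (.nil △ o : BinaryTree Unit) = 1 := rfl
    omega
  · exact oo_ne (List.cons.inj e).1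

theorem jv3 (hS : PD S) (h2 : 2 ≤ ht Z) {w : BinaryTree Unit} (hw : JVW.OldW Z w) :
    w ≠ app S ((.nil △ o) △ .nil) := by
  rintro rfl
  have hc := comps_ne hS.ne
  unfold JVW.OldW at hw
  rw [w3c] at hw
  rcases hw with e | e | e | e | e | e | e
  · exact one hc e
  · exact one hc e
  · exact one hc e
  · exact oo_ne (las (L' := [Z]) e).2
  · exact one hc e
  · exact oo_ne (las (L' := (Tsq.sq Z).1 :: comps (Tsq.sq Z).2) e).2
  · obtain ⟨a, l, h⟩ := List.exists_cons_of_ne_nil hc
    rw [h, List.cons_append, List.cons.injEq] at e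
    exact fstS hS.fb (L := l) (by rw [h, e.1])

theorem jv4 (hS : PD S) (h2 : 2 ≤ ht Z) {w : BinaryTree Unit} (hw : JVW.OldW Z w) :
    w ≠ .nil △ (o △ S) := by
  rintro rfl
  have hc := comps_ne hS.ne
  have hZ : Z ≠ .nil := by
    rintro rfl
    rw [ht] at h2
    omega
  unfold JVW.OldW at hw
  rw [w4c] at hw
  rcases hw with e | e | e | e | e | e | e
  · exact absurd (List.cons.inj e).2 (by simp)
  · exact absurd (List.cons.inj e).2 (by simp)
  · exact absurd (List.cons.inj e).2 (by simp)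
  · exact hZ (List.cons.inj e).1.symm
  · exact absurd (List.cons.inj e).2 (by simp)
  · exact (JVW.sq1 h2).2.1 (List.cons.inj e).1.symm
  · exact (JVW.sq1 h2).2.2 (List.cons.inj (List.cons.inj e).2).1.symm

/-! ### JVm -/

/-- the words of `Is9M` with index at least 2 -/
theorem jm (hS : PD S) (m : MV.MF Z (xTM Z)) {i : ℕ} (h2 : 2 ≤ i) (hi : i < 9) :
    MV.W Z (xTM Z) i ≠ app S (o △ o) ∧ MV.W Z (xTM Z) i ≠ (.nil △ o) △ S ∧
    MV.W Z (xTM Z) i ≠ app S ((.nil △ o) △ .nil) ∧
    (xTM Z ≠ o △ S → MV.W Z (xTM Z) i ≠ .nil △ (o △ S)) := by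
  obtain ⟨c0, c1, c2, c3, c4, c5, c6, c7, c8⟩ := MV.cw Z (xTM Z)
  have hc := comps_ne hS.ne
  have hc' : comps S ++ [o] ≠ [] := by simp
  have hXc : comps (xTM Z) ≠ [] := comps_ne m.Xne
  obtain ⟨a, l, h⟩ := List.exists_cons_of_ne_nil hc
  have ooX : (.nil △ o : BinaryTree Unit) ∉ comps (xTM Z) := by
    intro e
    have key : ∀ T : BinaryTree Unit, (.nil △ o : BinaryTree Unit) ∈ comps T → 1 ∈ cont T := by
      intro T
      induction T with
      | nil => intro h; cases h
      | node u A Y _ ih =>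
        intro h
        have h' : (.nil △ o : BinaryTree Unit) ∈ A :: comps Y := h
        change 1 ∈ cont (A △ Y)
        rw [cont_node, Multiset.mem_add]
        rcases List.mem_cons.1 h' with rfl | h1
        · left
          decide
        · exact Or.inr (ih h1)
    have h1 := key _ e
    have h2 := m.oX
    rw [Multiset.count_eq_zero] at h2
    exact h2 h1
  refine ⟨?_, ?_, ?_, ?_⟩
  · intro e
    have e := congrArg comps e
    rw [w1c] at e
    interval_cases i
    · rw [c2] at e; exact one hc' e.symm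
    · rw [c3] at e; exact one hc' e.symm
    · rw [c4] at e; exact one hc' e.symm
    · rw [c5] at e
      exact m.Sne (las (L := [.nil]) e).2
    · rw [c6] at e; exact one hc' e.symm
    · rw [c7, h, List.cons_append, List.cons_append, List.cons.injEq] at e
      exact fstS hS.fb (L := l) (by rw [h, e.1])
    · rw [c8] at e
      have h5 := m.Xl (las e).1
      change 3 ≤ 1 at h5
      omega
  · intro e
    have e := congrArg comps e
    rw [w2c] at e
    interval_cases i
    · rw [c2] at e; exact hc (List.cons.inj e).2.symm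
    · rw [c3] at e; exact hc (List.cons.inj e).2.symm
    · rw [c4] at e; exact hc (List.cons.inj e).2.symm
    · rw [c5] at e; exact oo_ne (List.cons.inj e).1.symm
    · rw [c6] at e; exact hc (List.cons.inj e).2.symm
    · rw [c7] at e; exact oo_ne (List.cons.inj e).1.symm
    · rw [c8] at e
      obtain ⟨b, r, hb⟩ := List.exists_cons_of_ne_nil hXc
      rw [hb, List.cons_append, List.cons.injEq] at e
      apply ooX
      rw [hb, e.1]
      simp
  · intro e
    have e := congrArg comps e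
    rw [w3c] at e
    interval_cases i
    · rw [c2] at e; exact one hc e.symm
    · rw [c3] at e; exact one hc e.symm
    · rw [c4] at e; exact one hc e.symm
    · rw [c5] at e
      have e1 := (las (L := [.nil]) e).1
      exact fstS hS.fb (L := []) e1.symm
    · rw [c6] at e; exact one hc e.symm
    · rw [c7, h, List.cons_append, List.cons.injEq] at e
      exact fstS hS.fb (L := l) (by rw [h, e.1])
    · rw [c8] at e
      exact oo_ne (las e).2.symm
  · intro hx e
    have e := congrArg comps e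
    rw [w4c] at e
    interval_cases i
    · rw [c2] at e; exact absurd (List.cons.inj e).2.symm (by simp)
    · rw [c3] at e; exact absurd (List.cons.inj e).2.symm (by simp)
    · rw [c4] at e; exact absurd (List.cons.inj e).2.symm (by simp)
    · rw [c5] at e
      exact hc (List.cons.inj (List.cons.inj e).2).2.symm
    · rw [c6] at e; exact absurd (List.cons.inj e).2.symm (by simp)
    · rw [c7] at e
      exact hx (comps_inj (List.cons.inj e).2)
    · rw [c8] at e
      obtain ⟨b, r, hb⟩ := List.exists_cons_of_ne_nil hXc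
      rw [hb, List.cons_append, List.cons.injEq] at e
      apply m.Xn
      rw [hb, e.1]
      simp

/-! ### the four extra words of JE -/

/-- the components of the extra words -/
def Ex4 (R w : BinaryTree Unit) : Prop :=
  comps w = (comps R ++ [.nil]) ++ [.nil] ∨ comps w = .nil :: (comps R ++ [.nil]) ∨
    comps w = .nil :: .nil :: comps R ∨ comps w = [.nil, R]

/-- the components of the mirrored extra words -/
def Ex4M (R w : BinaryTree Unit) : Prop :=
  comps w = .nil :: .nil :: comps R ∨ comps w = .nil :: (comps R ++ [.nil]) ∨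
    comps w = (comps R ++ [.nil]) ++ [.nil] ∨ comps w = [R, .nil]

theorem ex4 (hS : PD S) {R w : BinaryTree Unit} (hR : H1.fb R = false) (hR' : H1.lastB R = false)
    (hR0 : R ≠ .nil) (h : Ex4 R w ∨ Ex4M R w) :
    w ≠ app S (o △ o) ∧ w ≠ (.nil △ o) △ S ∧ w ≠ app S ((.nil △ o) △ .nil) ∧ w ≠ .nil △ (o △ S) := by
  have hc := comps_ne hS.ne
  have hcR := comps_ne hR0
  obtain ⟨a, l, hs⟩ := List.exists_cons_of_ne_nil hc
  obtain ⟨b, r, hr⟩ := List.exists_cons_of_ne_nil hcR
  have ha : a ≠ .nil := by rintro rfl; exact fstS hS.fb hs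
  have hb : b ≠ .nil := by rintro rfl; exact fstS hR hr
  have f1 : ∀ {L L' : List (BinaryTree Unit)}, comps S ++ L ≠ .nil :: L' := by
    intro L L' e
    rw [hs, List.cons_append, List.cons.injEq] at e
    exact ha e.1
  have hw : comps w = (comps R ++ [.nil]) ++ [.nil] ∨ comps w = .nil :: (comps R ++ [.nil]) ∨
      comps w = .nil :: .nil :: comps R ∨ comps w = [.nil, R] ∨ comps w = [R, .nil] := by
    rcases h with (h | h | h | h) | (h | h | h | h) <;> tauto
  refine ⟨?_, ?_, ?_, ?_⟩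
  · rintro rfl
    rw [w1c] at hw
    rcases hw with e | e | e | e | e
    · exact o_ne (las (las e).1).2
    · rw [List.append_assoc] at e; exact f1 e
    · rw [List.append_assoc] at e; exact f1 e
    · rw [List.append_assoc] at e; exact f1 e
    · have e1 := (las (L' := [R]) e).1
      exact one hc e1
  · rintro rfl
    rw [w2c] at hw
    rcases hw with e | e | e | e | e
    · obtain ⟨T, hT⟩ := ex_cs (comps S)
      rw [hr, List.cons_append, List.cons_append, List.cons.injEq] at e
      exact lstS hS.lb e.2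
    · exact oo_ne (List.cons.inj e).1
    · exact oo_ne (List.cons.inj e).1
    · exact oo_ne (List.cons.inj e).1
    · exact fstS hS.fb (List.cons.inj e).2
  · rintro rfl
    rw [w3c] at hw
    rcases hw with e | e | e | e | e
    · exact oo_ne (las e).2
    · exact f1 e
    · exact f1 e
    · exact f1 e
    · exact oo_ne (las (L' := [R]) e).2
  · rintro rfl
    rw [w4c] at hw
    rcases hw with e | e | e | e | e
    · rw [hr, List.cons_append, List.cons_append, List.cons.injEq] at e
      exact hb e.1.symm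
    · have e1 := (List.cons.inj e).2
      rw [hr, List.cons_append, List.cons.injEq] at e1
      obtain ⟨T, hT⟩ := ex_cs r
      exact lstS hS.lb e1.2
    · exact o_ne (List.cons.inj (List.cons.inj e).2).1
    · exact hc (List.cons.inj (List.cons.inj e).2).2
    · exact hR0 (List.cons.inj e).1.symm

end P5V

open P5V

/-- **P5 - JV** : only if `X' = S(())` -/
theorem TyP5D.r_JV (h : TyP5D S F g) (h' : Is9 .nil .nil Z F' g') (hd : ∀ c ∈ F, c ∉ F') (hE : EdIn F g')
    (hx : xT Z ≠ app S (o △ .nil)) : ∀ w ∈ g.B, w ∉ g'.B := by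
  have h2 := JVW.ht3 h'
  refine h.row' hd hE ?_ ?_
  · intro w hw hc
    rcases JVW.words h' w hw with ⟨h1, -⟩ | h1
    · exact absurd h1 hc
    · exact jv1 h.1 h2 h1 hx
  · intro w hw hc
    rcases JVW.words h' w hw with ⟨h1, -⟩ | h1
    · exact absurd h1 hc
    · exact jv2 h.1 h2 h1

/-- **P5 - JV**, `Z` does not end with `(())` -/
theorem TyP5D.r_JV' (h : TyP5D S F g) (h' : Is9 .nil .nil Z F' g') (hd : ∀ c ∈ F, c ∉ F') (hE : EdIn F g')
    (hx : JVW.NE2 Z) : ∀ w ∈ g.B, w ∉ g'.B :=
  h.r_JV h' hd hE (hx.xT (JVW.ht3 h') S)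

/-- **P5M - JV** -/
theorem TyP5MD.r_JV (h : TyP5MD S F g) (h' : Is9 .nil .nil Z F' g') (hd : ∀ c ∈ F, c ∉ F') (hE : EdIn F g') :
    ∀ w ∈ g.B, w ∉ g'.B := by
  have h2 := JVW.ht3 h'
  refine h.row' hd hE ?_ ?_
  · intro w hw hc
    rcases JVW.words h' w hw with ⟨h1, -⟩ | h1
    · exact absurd h1 hc
    · exact jv4 h.1 h2 h1
  · intro w hw hc
    rcases JVW.words h' w hw with ⟨h1, -⟩ | h1
    · exact absurd h1 hc
    · exact jv3 h.1 h2 h1

/-- the words of `Is9M` outside `F` -/
theorem jm_words (h' : Is9M .nil .nil Z F' g') {w : X k} (hw : w ∈ g'.B) (hc : cyc w ∉ F') :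
    ∃ i, 2 ≤ i ∧ i < 9 ∧ w.1 = MV.W Z (xTM Z) i := by
  obtain ⟨i, hi, e, h2⟩ := MV.words h' w hw
  refine ⟨i, ?_, hi, e⟩
  by_contra hcon
  exact hc (h2 (by omega))

/-- **P5 - JVm** -/
theorem TyP5D.r_JVm (h : TyP5D S F g) (h' : Is9M .nil .nil Z F' g') (hZ : 3 ≤ ht Z)
    (oZ : (cont Z).count 1 = 0) (hd : ∀ c ∈ F, c ∉ F') (hE : EdIn F g') : ∀ w ∈ g.B, w ∉ g'.B := by
  have m := MV.MF.of hZ oZ
  refine h.row' hd hE ?_ ?_
  · intro w hw hc e
    obtain ⟨i, h2, hi, e1⟩ := jm_words h' hw hc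
    exact (jm h.1 m h2 hi).1 (e1.symm.trans e)
  · intro w hw hc e
    obtain ⟨i, h2, hi, e1⟩ := jm_words h' hw hc
    exact (jm h.1 m h2 hi).2.1 (e1.symm.trans e)

/-- **P5M - JVm** : only if `X' = (())S` -/
theorem TyP5MD.r_JVm (h : TyP5MD S F g) (h' : Is9M .nil .nil Z F' g') (hZ : 3 ≤ ht Z)
    (oZ : (cont Z).count 1 = 0) (hd : ∀ c ∈ F, c ∉ F') (hE : EdIn F g') (hx : xTM Z ≠ o △ S) :
    ∀ w ∈ g.B, w ∉ g'.B := by
  have m := MV.MF.of hZ oZ
  refine h.row' hd hE ?_ ?_
  · intro w hw hc e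
    obtain ⟨i, h2, hi, e1⟩ := jm_words h' hw hc
    exact (jm h.1 m h2 hi).2.2.2 hx (e1.symm.trans e)
  · intro w hw hc e
    obtain ⟨i, h2, hi, e1⟩ := jm_words h' hw hc
    exact (jm h.1 m h2 hi).2.2.1 (e1.symm.trans e)

/-! ### JE -/

theorem ex4_of {R B S' w : BinaryTree Unit} {i : ℕ} (hi : i ∈ [1, 2, 5, 8])
    (e : w = H1.W R .nil B S' i) : Ex4 R w := by
  simp only [List.mem_cons, List.not_mem_nil, or_false] at hi
  rcases hi with rfl | rfl | rfl | rfl
  · left
    rw [e]
    change comps (app R (.nil △ (.nil △ .nil))) = _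
    rw [comps_app, List.append_assoc]
    rfl
  · right; left
    rw [e]
    change comps (.nil △ app R (.nil △ .nil)) = _
    rw [comps_node, comps_app]
    rfl
  · right; right; left
    rw [e]
    rfl
  · right; right; right
    rw [e]
    rfl

theorem ex4M_of {R B S' w : BinaryTree Unit} {i : ℕ} (hi : i ∈ [1, 2, 5, 8])
    (e : w = Tsq.mir (H1.W R .nil B S' i)) : Ex4M (Tsq.mir R) w := by
  have h0 : Tsq.mir BinaryTree.nil = BinaryTree.nil := rfl
  have hx := ex4_of hi rfl (R := R) (B := B) (S' := S')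
  simp only [List.mem_cons, List.not_mem_nil, or_false] at hi
  rcases hi with rfl | rfl | rfl | rfl
  · left
    rw [e]
    have : Tsq.mir (H1.W R .nil B S' 1) = .nil △ (.nil △ Tsq.mir R) := by
      change Tsq.mir (app R (.nil △ (.nil △ .nil))) = _
      simp only [Tsq.mir_node, Tsq.mir_app, h0, app]
    rw [this]
    rfl
  · right; left
    rw [e]
    have : Tsq.mir (H1.W R .nil B S' 2) = .nil △ app (Tsq.mir R) (.nil △ .nil) := by
      change Tsq.mir (.nil △ app R (.nil △ .nil)) = _
      simp only [Tsq.mir_node, Tsq.mir_app, h0, app]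
    rw [this, comps_node, comps_app]
    rfl
  · right; right; left
    rw [e]
    have : Tsq.mir (H1.W R .nil B S' 5) = app (app (Tsq.mir R) (.nil △ .nil)) (.nil △ .nil) := by
      change Tsq.mir (.nil △ (.nil △ R)) = _
      simp only [Tsq.mir_node, h0]
    rw [this, comps_app, comps_app]
    rfl
  · right; right; right
    rw [e]
    have : Tsq.mir (H1.W R .nil B S' 8) = Tsq.mir R △ (.nil △ .nil) := by
      change Tsq.mir (.nil △ (R △ .nil)) = _
      simp only [Tsq.mir_node, h0, app]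
    rw [this]
    rfl

theorem fl_of {R : BinaryTree Unit} (h : (cont R).count 1 = 0) : H1.fb R = false ∧ H1.lastB R = false := by
  have hn := MV.nil_mem h
  constructor
  · cases hR : R with
    | nil => rfl
    | node u A B =>
      change H1.isNil A = false
      rw [H1.isNil_f]
      rintro rfl
      apply hn
      rw [hR]
      change BinaryTree.nil ∈ BinaryTree.nil :: comps B
      simp
  · cases h1 : H1.lastB R with
    | false => rfl
    | true =>
      exfalso
      apply hn
      have key : ∀ T : BinaryTree Unit, H1.lastB T = true → .nil ∈ comps T := by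
        intro T
        induction T with
        | nil => intro h; exact absurd h (by simp [H1.lastB])
        | node u A B _ ih =>
          intro h
          cases hB : B with
          | nil =>
            rw [hB] at h
            have h2 : H1.isNil A = true := h
            cases A with
            | nil => change BinaryTree.nil ∈ BinaryTree.nil :: comps _; simp
            | node _ _ _ => exact absurd h2 (by simp [H1.isNil])
          | node v C D =>
            rw [← hB]
            change BinaryTree.nil ∈ A :: comps B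
            have h2 : H1.lastB (A △ B) = H1.lastB B := H1.lastB_cons (by rw [hB]; simp)
            have h3 : H1.lastB (A △ B) = true := h
            rw [h2] at h3
            exact List.mem_cons_of_mem _ (ih h3)
      exact key R h1

/-- **P5 - JE** : only if `X' = S(())` -/
theorem TyP5D.r_JE (h : TyP5D S F g) (h' : TyJE Z F' g') (hd : ∀ c ∈ F, c ∉ F') (hE : EdIn F g')
    (hx : xT Z ≠ app S (o △ .nil)) : ∀ w ∈ g.B, w ∉ g'.B := by
  have o1 := h'.one
  have n1 := h'.ne
  have h3 := h'.h3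
  obtain ⟨f1, f2⟩ := fl_of o1
  obtain ⟨B, S', v, hD⟩ := h'.de
  refine h.row' hd hE ?_ ?_
  · intro w hw hc
    rcases hD.wd9 w hw with h1 | ⟨i, hi, e⟩
    · rcases JVW.words hD.is9 w h1 with ⟨h2, -⟩ | h2
      · exact absurd (hD.sub9 _ h2) hc
      · exact jv1 h.1 (by omega) h2 hx
    · exact (ex4 h.1 f1 f2 n1 (Or.inl (ex4_of hi e))).1
  · intro w hw hc
    rcases hD.wd9 w hw with h1 | ⟨i, hi, e⟩
    · rcases JVW.words hD.is9 w h1 with ⟨h2, -⟩ | h2
      · exact absurd (hD.sub9 _ h2) hc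
      · exact jv2 h.1 (by omega) h2
    · exact (ex4 h.1 f1 f2 n1 (Or.inl (ex4_of hi e))).2.1

/-- **P5M - JE** -/
theorem TyP5MD.r_JE (h : TyP5MD S F g) (h' : TyJE Z F' g') (hd : ∀ c ∈ F, c ∉ F') (hE : EdIn F g') :
    ∀ w ∈ g.B, w ∉ g'.B := by
  have o1 := h'.one
  have n1 := h'.ne
  have h3 := h'.h3
  obtain ⟨f1, f2⟩ := fl_of o1
  obtain ⟨B, S', v, hD⟩ := h'.de
  refine h.row' hd hE ?_ ?_
  · intro w hw hc
    rcases hD.wd9 w hw with h1 | ⟨i, hi, e⟩
    · rcases JVW.words hD.is9 w h1 with ⟨h2, -⟩ | h2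
      · exact absurd (hD.sub9 _ h2) hc
      · exact jv4 h.1 (by omega) h2
    · exact (ex4 h.1 f1 f2 n1 (Or.inl (ex4_of hi e))).2.2.2
  · intro w hw hc
    rcases hD.wd9 w hw with h1 | ⟨i, hi, e⟩
    · rcases JVW.words hD.is9 w h1 with ⟨h2, -⟩ | h2
      · exact absurd (hD.sub9 _ h2) hc
      · exact jv3 h.1 (by omega) h2
    · exact (ex4 h.1 f1 f2 n1 (Or.inl (ex4_of hi e))).2.2.1

/-! ### JEM -/

/-- **P5 - JEM** -/
theorem TyP5D.r_JEM (h : TyP5D S F g) (h' : TyJEM Z F' g') (hd : ∀ c ∈ F, c ∉ F') (hE : EdIn F g') :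
    ∀ w ∈ g.B, w ∉ g'.B := by
  obtain ⟨B, S', v, hD⟩ := h'.dem
  have m := MV.MF.of (S := Tsq.mir (Tsq.mir Z)) (by rw [ht_mir]; exact hD.sq.h3)
    (by rw [MV.cont_mir9]; exact hD.sq.one)
  have o1 : (cont (Tsq.mir (Tsq.mir Z))).count 1 = 0 := by rw [MV.cont_mir9]; exact hD.sq.one
  obtain ⟨f1, f2⟩ := fl_of o1
  refine h.row' hd hE ?_ ?_
  · intro w hw hc
    rcases hD.wd9 w hw with h1 | ⟨i, hi, e⟩
    · intro e
      obtain ⟨i, h2, hi, e1⟩ := jm_words hD.is9 h1 (fun h2 => hc (hD.sub9 _ h2))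
      exact (jm h.1 m h2 hi).1 (e1.symm.trans e)
    · exact (ex4 h.1 f1 f2 m.Sne (Or.inr (ex4M_of hi e))).1
  · intro w hw hc
    rcases hD.wd9 w hw with h1 | ⟨i, hi, e⟩
    · intro e
      obtain ⟨i, h2, hi, e1⟩ := jm_words hD.is9 h1 (fun h2 => hc (hD.sub9 _ h2))
      exact (jm h.1 m h2 hi).2.1 (e1.symm.trans e)
    · exact (ex4 h.1 f1 f2 m.Sne (Or.inr (ex4M_of hi e))).2.1

/-- **P5M - JEM** : only if `X' = (())S` -/
theorem TyP5MD.r_JEM (h : TyP5MD S F g) (h' : TyJEM Z F' g') (hd : ∀ c ∈ F, c ∉ F') (hE : EdIn F g')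
    (hx : xTM Z ≠ o △ S) : ∀ w ∈ g.B, w ∉ g'.B := by
  obtain ⟨B, S', v, hD⟩ := h'.dem
  have m := MV.MF.of (S := Tsq.mir (Tsq.mir Z)) (by rw [ht_mir]; exact hD.sq.h3)
    (by rw [MV.cont_mir9]; exact hD.sq.one)
  have o1 : (cont (Tsq.mir (Tsq.mir Z))).count 1 = 0 := by rw [MV.cont_mir9]; exact hD.sq.one
  obtain ⟨f1, f2⟩ := fl_of o1
  have hx' : xTM (Tsq.mir (Tsq.mir Z)) ≠ o △ S := by rw [Tsq.mir_mir]; exact hx
  refine h.row' hd hE ?_ ?_
  · intro w hw hc
    rcases hD.wd9 w hw with h1 | ⟨i, hi, e⟩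
    · intro e
      obtain ⟨i, h2, hi, e1⟩ := jm_words hD.is9 h1 (fun h2 => hc (hD.sub9 _ h2))
      exact (jm h.1 m h2 hi).2.2.2 hx' (e1.symm.trans e)
    · exact (ex4 h.1 f1 f2 m.Sne (Or.inr (ex4M_of hi e))).2.2.2
  · intro w hw hc
    rcases hD.wd9 w hw with h1 | ⟨i, hi, e⟩
    · intro e
      obtain ⟨i, h2, hi, e1⟩ := jm_words hD.is9 h1 (fun h2 => hc (hD.sub9 _ h2))
      exact (jm h.1 m h2 hi).2.2.1 (e1.symm.trans e)
    · exact (ex4 h.1 f1 f2 m.Sne (Or.inr (ex4M_of hi e))).2.2.1

end Pool.OddHC
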