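import Pool.Agent.Work.MP_8f87b2_h97.P5b
import Pool.Agent.Work.MP_8f87b2_h27.Ed

/-!
# MP_8f87b2_co: the strong predicates of the 5-cycle groups and their E triple

`PD S` : `S = C(S', e)`, all parts of `S'` at least `3`, at least two of them, no bead at the ends of `S`.
`TyP5D S F g`, `TyP5MD S F g` : P5, P5M over `S`. `TyP5D.row`, `TyP5MD.row`: a row of P5 from the row of `TyEd`, and the two
words `S(())()`, `(()())S` (P5), `()(())S`, `S(()())` (P5M).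
-/

set_option autoImplicit false

namespace Pool.OddHC

open Finset Equiv BinaryTree Pool.Agent.Work.MP_8f87b2_co P5

variable {k : ℕ} {F F' : Set (Cyc k)} {g g' : DG k} {S : BinaryTree Unit}

/-- the word `S` of an L pair over a deep content: two solitons at least, all at least `4`, beads inside -/
def PD (S : BinaryTree Unit) : Prop :=
  ∃ (S' : BinaryTree Unit) (e : List ℕ), S = ins S' e ∧ e.length = 2 * S'.numNodes + 1 ∧
    (∀ x ∈ cont S', 3 ≤ x) ∧ 2 ≤ Multiset.card (cont S') ∧ H1.fb S = false ∧ H1.lastB S = false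

theorem PD.cont (h : PD S) : ∃ (M : Multiset ℕ) (n : ℕ), OddHC.cont S = M + Multiset.replicate n 1 ∧
    (∀ x ∈ M, 4 ≤ x) ∧ 2 ≤ Multiset.card M := by
  obtain ⟨S', e, rfl, h2, h3, h4, -, -⟩ := h
  refine ⟨(OddHC.cont S').map (· + 1), e.sum, ?_, ?_, ?_⟩
  · exact cont_ins S' e h2
  · intro x hx
    obtain ⟨y, hy, rfl⟩ := Multiset.mem_map.1 hx
    have := h3 y hy
    omega
  · rw [Multiset.card_map]
    exact h4

theorem PD.ne (h : PD S) : S ≠ .nil := by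
  obtain ⟨M, n, e, -, h2⟩ := h.cont
  rintro rfl
  have e1 := congrArg Multiset.card e
  rw [Multiset.card_add] at e1
  have : Multiset.card (OddHC.cont (BinaryTree.nil : BinaryTree Unit)) = 0 := rfl
  omega

theorem PD.c2 (h : PD S) : (OddHC.cont S).count 2 = 0 := by
  obtain ⟨M, n, e, h1, -⟩ := h.cont
  rw [Multiset.count_eq_zero, e, Multiset.mem_add]
  rintro (h2 | h2)
  · have := h1 _ h2; omega
  · have := Multiset.eq_of_mem_replicate h2; omega

theorem PD.c3 (h : PD S) : (OddHC.cont S).count 3 = 0 := by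
  obtain ⟨M, n, e, h1, -⟩ := h.cont
  rw [Multiset.count_eq_zero, e, Multiset.mem_add]
  rintro (h2 | h2)
  · have := h1 _ h2; omega
  · have := Multiset.eq_of_mem_replicate h2; omega

/-- at least two parts `≥ 4` -/
theorem PD.c4 (h : PD S) : 2 ≤ (OddHC.cont S).countP (4 ≤ ·) := by
  obtain ⟨M, n, e, h1, h2⟩ := h.cont
  rw [e, Multiset.countP_add]
  have : Multiset.countP (4 ≤ ·) M = Multiset.card M := Multiset.countP_eq_card.2 h1
  omega

theorem PD.ht (h : PD S) : 4 ≤ OddHC.ht S := by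
  obtain ⟨M, n, e, h1, h2⟩ := h.cont
  rw [OddHC.ht_eq, e]
  obtain ⟨x, hx⟩ := Multiset.card_pos_iff_exists_mem.1 (show 0 < Multiset.card M by omega)
  exact le_trans (h1 x hx) (Multiset.le_sup (Multiset.mem_add.2 (Or.inl hx)))

theorem PD.fb (h : PD S) : H1.fb S = false := by
  obtain ⟨_, _, _, _, _, _, h5, _⟩ := h
  exact h5

theorem PD.lb (h : PD S) : H1.lastB S = false := by
  obtain ⟨_, _, _, _, _, _, _, h5⟩ := h
  exact h5

/-- TYPE P5 over `S` -/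
def TyP5D (S : BinaryTree Unit) (F : Set (Cyc k)) (g : DG k) : Prop :=
  PD S ∧ TyPent o S .nil .nil .nil F g

/-- TYPE P5M over `S` -/
def TyP5MD (S : BinaryTree Unit) (F : Set (Cyc k)) (g : DG k) : Prop :=
  PD S ∧ TyPent .nil S o .nil .nil F g

theorem TyP5D.toP5 (h : TyP5D S F g) : TyP5 F g := ⟨S, by have := h.1.ht; omega, h.2⟩

theorem TyP5MD.toP5M (h : TyP5MD S F g) : TyP5M F g := ⟨S, by have := h.1.ht; omega, h.2⟩

/-- beads before and behind `(R)` -/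
theorem ins_prime {R' : BinaryTree Unit} {e : List ℕ} (hR : R' ≠ .nil)
    (he : e.length = 2 * R'.numNodes + 1) (p q : ℕ) :
    ins (R' △ .nil) (p :: (e ++ [q])) = w1 (lp p) (ins R' e) (lp q) := by
  rw [ins, w1]
  have h1 : (p :: (e ++ [q])).tail.take (2 * R'.numNodes + 1) = e := by
    rw [List.tail_cons, List.take_append_of_le_length (by omega), List.take_of_length_le (by omega)]
  have h2 : (p :: (e ++ [q])).drop (2 * R'.numNodes + 2) = [q] := by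
    rw [show 2 * R'.numNodes + 2 = (2 * R'.numNodes + 1) + 1 from rfl, List.drop_succ_cons,
      ← he, List.drop_left]
  have h3 : bump R' e = e := by
    cases R' with
    | nil => exact absurd rfl hR
    | node _ _ _ => rfl
  rw [h1, h2, h3, List.headD_cons]
  change lv p (ins R' e △ lv q .nil) = app (lv p .nil) (ins R' e △ lv q .nil)
  exact lv_app p _

/-- **the E triple of the host of an L pair is of type Ed** -/
theorem tri_Ed (h : PD S) {p q : ℕ} (ht : IsTri .nil (w1 (lp p) S (lp q)) .nil F g) : TyEd F g := by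
  obtain ⟨S', e, rfl, h2, h3, h4, -, -⟩ := h
  have hne : S' ≠ .nil := by
    rintro rfl
    have : Multiset.card (OddHC.cont (BinaryTree.nil : BinaryTree Unit)) = 0 := rfl
    omega
  have hn : (S' △ .nil).numNodes = S'.numNodes + 1 := by
    change S'.numNodes + 0 + 1 = _
    omega
  have hl : (p :: (e ++ [q])).length = 2 * (S'.numNodes + 1) + 1 := by
    rw [List.length_cons, List.length_append, List.length_singleton, h2]
    omega
  obtain ⟨f, hf⟩ := exists_lf (n := 2 * (S'.numNodes + 1) + 1) hl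
  refine ⟨S'.numNodes + 1, ⟨S' △ .nil, mem_treesOfNumNodesEq.2 hn⟩, f, by omega, ?_, ?_⟩
  · have h5 : ∀ x ∈ OddHC.cont (S' △ .nil), 3 ≤ x := by
      intro x hx
      rw [cont_node, cont_nil, add_zero] at hx
      unfold raise at hx
      rcases Multiset.mem_add.1 (show x ∈ ({(OddHC.cont S').sup + 1} : Multiset ℕ) + (OddHC.cont S').erase _ from hx) with h6 | h6
      · rw [Multiset.mem_singleton] at h6
        have h7 : OddHC.cont S' ≠ 0 := fun e => hne (cont_eq_zero.1 e)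
        have := h3 _ (sup_mem h7)
        omega
      · exact h3 x (Multiset.mem_of_mem_erase h6)
    constructor
    · rw [Multiset.count_eq_zero]
      intro h6
      have := h5 _ h6
      omega
    · rw [Multiset.count_eq_zero]
      intro h6
      have := h5 _ h6
      omega
  · change IsTri .nil (ins (S' △ .nil) (lf f)) .nil F g
    rw [← hf, ins_prime hne h2]
    exact ht

/-- the words of `TyP5D` -/
theorem TyP5D.mem (h : TyP5D S F g) : ∀ x ∈ g.B, (x.1 = wR S 0 ∧ cyc x ∉ F) ∨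
    (cyc x ∈ F ∧ (x.1 = wR S 1 ∨ x.1 = wR S 2 ∨ x.1 = wR S 3 ∨ x.1 = wR S 4)) := by
  intro x hx
  obtain ⟨i, hi, e, h1, h0⟩ := h.2.mem x hx
  rw [wR_eq S i hi] at e
  interval_cases i
  · exact Or.inl ⟨e, h0 rfl⟩
  · exact Or.inr ⟨h1 (by omega), Or.inl e⟩
  · exact Or.inr ⟨h1 (by omega), Or.inr (Or.inl e)⟩
  · exact Or.inr ⟨h1 (by omega), Or.inr (Or.inr (Or.inl e))⟩
  · exact Or.inr ⟨h1 (by omega), Or.inr (Or.inr (Or.inr e))⟩

theorem TyP5MD.mem (h : TyP5MD S F g) : ∀ x ∈ g.B, (x.1 = wM S 0 ∧ cyc x ∉ F) ∨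
    (cyc x ∈ F ∧ (x.1 = wM S 1 ∨ x.1 = wM S 2 ∨ x.1 = wM S 3 ∨ x.1 = wM S 4)) := by
  intro x hx
  obtain ⟨i, hi, e, h1, h0⟩ := h.2.mem x hx
  rw [wM_eq S i hi] at e
  interval_cases i
  · exact Or.inl ⟨e, h0 rfl⟩
  · exact Or.inr ⟨h1 (by omega), Or.inl e⟩
  · exact Or.inr ⟨h1 (by omega), Or.inr (Or.inl e)⟩
  · exact Or.inr ⟨h1 (by omega), Or.inr (Or.inr (Or.inl e))⟩
  · exact Or.inr ⟨h1 (by omega), Or.inr (Or.inr (Or.inr e))⟩

/-- the E triple inside P5 -/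
theorem TyP5D.E (h : TyP5D S F g) : ∃ (FE : Set (Cyc k)) (gE : DG k), TyEd FE gE ∧ (∀ c ∈ FE, c ∈ F) ∧
    ∀ x ∈ g.B, (x.1 = wR S 0 ∨ x.1 = wR S 1 ∨ x.1 = wR S 4) → x ∈ gE.B := by
  obtain ⟨hP, w, hw, hinj, hF, hg⟩ := h
  have hv : ∀ i < 5, (w i).1 = wR S i := fun i hi => by rw [hw i hi, wR_eq S i hi]
  have h2 : 2 ≤ OddHC.ht S := by have := hP.ht; omega
  obtain ⟨t0, t1, t2, t3, t4⟩ := ht_wR h2
  have e1 : htc (cyc (w 1)) = OddHC.ht S + 1 := by rw [htc_cyc, hv 1 (by norm_num), t1]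
  have e4 : htc (cyc (w 4)) = OddHC.ht S + 1 := by rw [htc_cyc, hv 4 (by norm_num), t4]
  have e0 : htc (cyc (w 0)) = OddHC.ht S + 2 := by rw [htc_cyc, hv 0 (by norm_num), t0]
  have ht : IsTri .nil (w1 (lp 1) S (lp 0)) .nil {cyc (w 1), cyc (w 4)}
      (pDG {w 0, w 1, w 4} (cyc (w 1)) (cyc (w 4)) ∅) := by
    refine ⟨w 0, w 1, w 4, hv 0 (by norm_num), hv 1 (by norm_num), hv 4 (by norm_num), ?_, ?_, ?_,
      rfl, rfl⟩
    · intro e
      exact absurd (hinj 1 (by norm_num) 4 (by norm_num) e) (by norm_num)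
    · rw [e1, e4]
    · rw [e1, e0]; omega
  refine ⟨_, _, tri_Ed hP ht, ?_, ?_⟩
  · rw [hF]
    rintro c (rfl | rfl)
    · simp [F4]
    · simp [F4]
  · intro x _ hx
    have : x = w 0 ∨ x = w 1 ∨ x = w 4 := by
      rcases hx with e | e | e
      · exact Or.inl (Subtype.ext (e.trans (hv 0 (by norm_num)).symm))
      · exact Or.inr (Or.inl (Subtype.ext (e.trans (hv 1 (by norm_num)).symm)))
      · exact Or.inr (Or.inr (Subtype.ext (e.trans (hv 4 (by norm_num)).symm)))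
    rcases this with rfl | rfl | rfl <;> simp [pDG]

/-- the E triple inside P5M -/
theorem TyP5MD.E (h : TyP5MD S F g) : ∃ (FE : Set (Cyc k)) (gE : DG k), TyEd FE gE ∧ (∀ c ∈ FE, c ∈ F) ∧
    ∀ x ∈ g.B, (x.1 = wM S 0 ∨ x.1 = wM S 1 ∨ x.1 = wM S 4) → x ∈ gE.B := by
  obtain ⟨hP, w, hw, hinj, hF, hg⟩ := h
  have hv : ∀ i < 5, (w i).1 = wM S i := fun i hi => by rw [hw i hi, wM_eq S i hi]
  have h2 : 2 ≤ OddHC.ht S := by have := hP.ht; omega
  obtain ⟨t0, t1, t2, t3, t4⟩ := ht_wM h2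
  have e1 : htc (cyc (w 1)) = OddHC.ht S + 1 := by rw [htc_cyc, hv 1 (by norm_num), t1]
  have e4 : htc (cyc (w 4)) = OddHC.ht S + 1 := by rw [htc_cyc, hv 4 (by norm_num), t4]
  have e0 : htc (cyc (w 0)) = OddHC.ht S + 2 := by rw [htc_cyc, hv 0 (by norm_num), t0]
  have ht : IsTri .nil (w1 (lp 0) S (lp 1)) .nil {cyc (w 1), cyc (w 4)}
      (pDG {w 0, w 1, w 4} (cyc (w 1)) (cyc (w 4)) ∅) := by
    refine ⟨w 0, w 1, w 4, hv 0 (by norm_num), hv 1 (by norm_num), hv 4 (by norm_num), ?_, ?_, ?_,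
      rfl, rfl⟩
    · intro e
      exact absurd (hinj 1 (by norm_num) 4 (by norm_num) e) (by norm_num)
    · rw [e1, e4]
    · rw [e1, e0]; omega
  refine ⟨_, _, tri_Ed hP ht, ?_, ?_⟩
  · rw [hF]
    rintro c (rfl | rfl)
    · simp [F4]
    · simp [F4]
  · intro x _ hx
    have : x = w 0 ∨ x = w 1 ∨ x = w 4 := by
      rcases hx with e | e | e
      · exact Or.inl (Subtype.ext (e.trans (hv 0 (by norm_num)).symm))
      · exact Or.inr (Or.inl (Subtype.ext (e.trans (hv 1 (by norm_num)).symm)))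
      · exact Or.inr (Or.inr (Subtype.ext (e.trans (hv 4 (by norm_num)).symm)))
    rcases this with rfl | rfl | rfl <;> simp [pDG]

/-- the E triples with groups inside `F` have no word in `g'` -/
def EdIn (F : Set (Cyc k)) (g' : DG k) : Prop :=
  ∀ (FE : Set (Cyc k)) (gE : DG k), TyEd FE gE → (∀ c ∈ FE, c ∈ F) → ∀ w ∈ gE.B, w ∉ g'.B

/-- **A ROW OF P5**: from the row of `TyEd`, and the words `S(())()` and `(()())S` -/
theorem TyP5D.row' (h : TyP5D S F g) (hd : ∀ c ∈ F, c ∉ F') (hE : EdIn F g')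
    (h2 : ∀ w ∈ g'.B, cyc w ∉ F' → w.1 ≠ app S (o △ o))
    (h3 : ∀ w ∈ g'.B, cyc w ∉ F' → w.1 ≠ (.nil △ o) △ S) : ∀ w ∈ g.B, w ∉ g'.B := by
  intro w hw hw'
  obtain ⟨FE, gE, hT, hs, hm⟩ := h.E
  have hE' := hE FE gE hT hs
  rcases h.mem w hw with ⟨e, -⟩ | ⟨hc, e | e | e | e⟩
  · exact hE' w (hm w hw (Or.inl e)) hw'
  · exact hE' w (hm w hw (Or.inr (Or.inl e))) hw'
  · exact h2 w hw' (hd _ hc) e
  · exact h3 w hw' (hd _ hc) e
  · exact hE' w (hm w hw (Or.inr (Or.inr e))) hw'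

/-- **A ROW OF P5M**: from the row of `TyEd`, and the words `()(())S` and `S(()())` -/
theorem TyP5MD.row' (h : TyP5MD S F g) (hd : ∀ c ∈ F, c ∉ F') (hE : EdIn F g')
    (h2 : ∀ w ∈ g'.B, cyc w ∉ F' → w.1 ≠ .nil △ (o △ S))
    (h3 : ∀ w ∈ g'.B, cyc w ∉ F' → w.1 ≠ app S ((.nil △ o) △ .nil)) : ∀ w ∈ g.B, w ∉ g'.B := by
  intro w hw hw'
  obtain ⟨FE, gE, hT, hs, hm⟩ := h.E
  have hE' := hE FE gE hT hs
  rcases h.mem w hw with ⟨e, -⟩ | ⟨hc, e | e | e | e⟩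
  · exact hE' w (hm w hw (Or.inl e)) hw'
  · exact hE' w (hm w hw (Or.inr (Or.inl e))) hw'
  · exact h3 w hw' (hd _ hc) e
  · exact h2 w hw' (hd _ hc) e
  · exact hE' w (hm w hw (Or.inr (Or.inr e))) hw'

theorem TyP5D.row (h : TyP5D S F g) (hd : ∀ c ∈ F, c ∉ F')
    (hE : ∀ (FE : Set (Cyc k)) (gE : DG k), TyEd FE gE → (∀ c ∈ FE, c ∉ F') → ∀ w ∈ gE.B, w ∉ g'.B)
    (h2 : ∀ w ∈ g'.B, cyc w ∉ F' → w.1 ≠ app S (o △ o))
    (h3 : ∀ w ∈ g'.B, cyc w ∉ F' → w.1 ≠ (.nil △ o) △ S) : ∀ w ∈ g.B, w ∉ g'.B :=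
  h.row' hd (fun FE gE hT hs => hE FE gE hT (fun c hc => hd c (hs c hc))) h2 h3

theorem TyP5MD.row (h : TyP5MD S F g) (hd : ∀ c ∈ F, c ∉ F')
    (hE : ∀ (FE : Set (Cyc k)) (gE : DG k), TyEd FE gE → (∀ c ∈ FE, c ∉ F') → ∀ w ∈ gE.B, w ∉ g'.B)
    (h2 : ∀ w ∈ g'.B, cyc w ∉ F' → w.1 ≠ .nil △ (o △ S))
    (h3 : ∀ w ∈ g'.B, cyc w ∉ F' → w.1 ≠ app S ((.nil △ o) △ .nil)) : ∀ w ∈ g.B, w ∉ g'.B :=
  h.row' hd (fun FE gE hT hs => hE FE gE hT (fun c hc => hd c (hs c hc))) h2 h3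

end Pool.OddHC
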