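import Pool.Agent.Work.MP_8f87b2_h13.TyRq
import Pool.Agent.Work.MP_8f87b2_h14.P5S
import Pool.Agent.Work.MP_8f87b2_h71ae.ALT

/-!
# MP_8f87b2_co: the new words `(()())U` and `U(()())` of the 5-cycle groups P5, P5M against the right windows

`pw_W` : `(()())U` is only the word 4 of a window with `q = 0` and `R = U`; `pm_W` : `U(()())` is only the word 13 of a window
with `q = 0`, `B` empty, `S = U`. `TyA.pw`, `TyA.pm`, `TyRq.pw`, `TyRq.pm`, `TySq.pw`, `TySq.pm`.
-/

set_option autoImplicit false
set_option linter.unusedSimpArgs false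

namespace Pool.OddHC

open Finset Equiv BinaryTree Pool.Agent.Work.MP_8f87b2_co

/-- `()()` -/
abbrev oo : BinaryTree Unit := .nil △ (.nil △ .nil)

namespace P5W

variable {k q : ℕ} {R B S U : BinaryTree Unit}

/-- the facts on a window: no component `(())`, `()` or `(()())` at the critical places -/
structure Pw (R B S : BinaryTree Unit) : Prop where
  R0 : R ≠ .nil
  S0 : S ≠ .nil
  R1 : R ≠ .nil △ .nil
  S1 : S ≠ .nil △ .nil
  R2 : R ≠ oo
  S2 : S ≠ oo
  B2 : B ≠ oo
  fR : ∀ Y, comps R ≠ oo :: Y
  fB : ∀ Y, comps B ≠ oo :: Y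
  fS : ∀ Y, comps S ≠ oo :: Y
  lR : ∀ Y, comps R ≠ Y ++ [oo]
  lB : ∀ Y, comps B ≠ Y ++ [oo]
  lS : ∀ Y, comps S ≠ Y ++ [oo]

theorem comps_oo : comps oo = [.nil, .nil] := rfl

theorem ch_oo (n : ℕ) : H1.ch n ≠ oo := by
  intro e
  have := congrArg comps e
  cases n with
  | zero => cases this
  | succ n => rw [comps_ch, comps_oo] at this; simp at this

theorem comps_chs (q : ℕ) : comps (H1.ch (q + 1)) = [H1.ch q] := comps_ch q

/-- **the word `(()())U` in a window** -/
theorem pw_W (h : Pw R B S) (hU : U ≠ .nil) {i : ℕ} (hi : i < 20)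
    (e : H1.W R (H1.ch (q + 1)) B S i = oo △ U) : i = 4 ∧ q = 0 ∧ R = U := by
  have e1 := congrArg comps e
  rw [comps_node] at e1
  have hR := comps_ne h.R0
  have hS := comps_ne h.S0
  have hUc := comps_ne hU
  obtain ⟨r, R', hr⟩ : ∃ r R', comps R = r :: R' := List.exists_cons_of_ne_nil hR
  obtain ⟨s, S', hs⟩ : ∃ s S', comps S = s :: S' := List.exists_cons_of_ne_nil hS
  have r1 : r ≠ oo := by rintro rfl; exact h.fR _ hr
  have s1 : s ≠ oo := by rintro rfl; exact h.fS _ hs
  have nil_oo : (BinaryTree.nil : BinaryTree Unit) ≠ oo := by simp [oo]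
  have app1 : ∀ {P Q A : BinaryTree Unit} {L : List (BinaryTree Unit)}, comps (app P Q) = A :: L →
      comps P = [] ∧ comps Q = A :: L ∨ ∃ P', comps P = A :: P' := by
    intro P Q A L h1
    rw [comps_app] at h1
    cases hP : comps P with
    | nil => rw [hP] at h1; exact Or.inl ⟨rfl, h1⟩
    | cons a l => rw [hP, List.cons_append, List.cons.injEq] at h1; exact Or.inr ⟨l, by rw [h1.1]⟩
  interval_cases i
  · simp only [H1.W, comps_app, hr, List.cons_append, List.cons.injEq] at e1
    exact absurd e1.1 r1
  · simp only [H1.W, comps_app, hr, List.cons_append, List.cons.injEq] at e1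
    exact absurd e1.1 r1
  · simp only [H1.W, comps_node, List.cons.injEq] at e1
    exact absurd e1.1 nil_oo
  · simp only [H1.W, comps_node, List.cons.injEq] at e1
    exact absurd e1.2.symm hUc
  · simp only [H1.W, comps_node, List.cons.injEq] at e1
    have e2 := congrArg comps e1.1
    simp only [comps_app, comps_chs, comps_node, comps, comps_oo, List.cons_append, List.nil_append,
      List.cons.injEq] at e2
    refine ⟨rfl, ?_, comps_inj e1.2⟩
    cases q with
    | zero => rfl
    | succ q => exact absurd e2.1 (by simp [H1.ch])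
  · simp only [H1.W, comps_node, List.cons.injEq] at e1
    exact absurd e1.1 (ch_oo _)
  · simp only [H1.W, comps_node, List.cons.injEq] at e1
    exact absurd e1.1 h.R2
  · simp only [H1.W, comps_app, comps_chs, List.cons_append, List.nil_append, List.cons.injEq] at e1
    exact absurd e1.1 (ch_oo _)
  · simp only [H1.W, comps_app, comps_chs, List.cons_append, List.nil_append, List.cons.injEq] at e1
    exact absurd e1.1 (ch_oo _)
  · simp only [H1.W, comps_node, List.cons.injEq] at e1
    have e2 := congrArg comps e1.1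
    simp [comps_node, comps] at e2
  · simp only [H1.W] at e1
    rcases app1 e1 with ⟨_, e2⟩ | ⟨P', e2⟩
    · rw [comps_node, List.cons.injEq] at e2
      have e3 := congrArg comps e2.1
      simp [comps_node, comps] at e3
    · exact absurd e2 (h.fB _)
  · simp only [H1.W] at e1
    rcases app1 e1 with ⟨_, e2⟩ | ⟨P', e2⟩
    · rw [comps_node, List.cons.injEq] at e2
      exact absurd e2.1 nil_oo
    · exact absurd e2 (h.fB _)
  · simp only [H1.W, comps_node, List.cons.injEq] at e1
    exact absurd e1.1 h.S2
  · simp only [H1.W, comps_app, hs, List.cons_append, List.cons.injEq] at e1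
    exact absurd e1.1 s1
  · simp only [H1.W, comps_node, List.cons.injEq] at e1
    have e2 := congrArg comps e1.1
    simp only [comps_app, comps_chs, comps_node, comps, comps_oo, List.cons_append, List.nil_append,
      List.cons.injEq] at e2
    exact absurd e2.2.2 hS
  · simp only [H1.W, comps_node, List.cons.injEq] at e1
    exact absurd e1.1 (ch_oo _)
  · simp only [H1.W, comps_app, hs, List.cons_append, List.cons.injEq] at e1
    exact absurd e1.1 s1
  · simp only [H1.W, comps_app, comps_chs, List.cons_append, List.nil_append, List.cons.injEq] at e1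
    exact absurd e1.1 (ch_oo _)
  · simp only [H1.W, comps_app, comps_chs, List.cons_append, List.nil_append, List.cons.injEq] at e1
    exact absurd e1.1 (ch_oo _)
  · simp only [H1.W, comps_node, List.cons.injEq] at e1
    have e2 := congrArg comps e1.1
    rw [comps_app, comps_oo, hs] at e2
    simp only [comps_node, comps, List.cons_append, List.cons.injEq] at e2
    have e3 : S' = [] := by
      have := congrArg List.length e2.2
      simp only [List.length_append, List.length_cons, List.length_nil] at this
      exact List.length_eq_zero_iff.1 (by omega)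
    exfalso
    apply h.S1
    apply comps_inj
    rw [hs, e2.1, e3]
    rfl

/-- **the word `U(()())` in a window** -/
theorem pm_W (h : Pw R B S) (hU : U ≠ .nil) {i : ℕ} (hi : i < 20)
    (e : H1.W R (H1.ch (q + 1)) B S i = app U (oo △ .nil)) : i = 13 ∧ q = 0 ∧ B = .nil ∧ S = U := by
  have e1 := congrArg comps e
  rw [comps_app, comps_node] at e1
  change _ = comps U ++ [oo] at e1
  have hR := comps_ne h.R0
  have hS := comps_ne h.S0
  have hUc := comps_ne hU
  obtain ⟨R', r, hr⟩ : ∃ R' r, comps R = R' ++ [r] := ⟨_, _, (List.dropLast_append_getLast hR).symm⟩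
  obtain ⟨S', s, hs⟩ : ∃ S' s, comps S = S' ++ [s] := ⟨_, _, (List.dropLast_append_getLast hS).symm⟩
  have r1 : r ≠ oo := by rintro rfl; exact h.lR _ hr
  have s1 : s ≠ oo := by rintro rfl; exact h.lS _ hs
  have nil_oo : (BinaryTree.nil : BinaryTree Unit) ≠ oo := by simp [oo]
  have las : ∀ {L L' : List (BinaryTree Unit)} {a b : BinaryTree Unit}, L ++ [a] = L' ++ [b] →
      L = L' ∧ a = b := by
    intro L L' a b h1
    have := List.append_inj' h1 rfl
    exact ⟨this.1, by simpa using this.2⟩
  have one : ∀ {a : BinaryTree Unit}, [a] = comps U ++ [oo] → False := by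
    intro a h1
    exact hUc (las (L := []) h1).1.symm
  interval_cases i
  · have e2 : comps R ++ [H1.ch (q + 1) △ .nil] = comps U ++ [oo] := by
      rw [← e1]; simp only [H1.W, comps_app, comps_node, comps]
    have e3 := congrArg comps (las e2).2
    simp [comps_node, comps] at e3
  · have e2 : (comps R ++ [.nil, H1.ch q]) ++ [.nil] = comps U ++ [oo] := by
      rw [← e1]; simp only [H1.W, comps_app, comps_node, comps, comps_chs]; simp
    exact absurd (las e2).2 nil_oo
  · have e2 : (.nil :: comps R ++ [.nil]) ++ [H1.ch q] = comps U ++ [oo] := by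
      rw [← e1]; simp only [H1.W, comps_app, comps_node, comps, comps_chs]; simp
    exact absurd (las e2).2 (ch_oo _)
  · simp only [H1.W, comps_node, comps] at e1
    exact absurd (one e1) (by simp)
  · have e2 : (app (H1.ch (q + 1)) (.nil △ .nil) :: R') ++ [r] = comps U ++ [oo] := by
      rw [← e1]; simp only [H1.W, comps_node, hr]; simp
    exact absurd (las e2).2 r1
  · have e2 : (H1.ch (q + 1) :: .nil :: R') ++ [r] = comps U ++ [oo] := by
      rw [← e1]; simp only [H1.W, comps_node, hr]; simp
    exact absurd (las e2).2 r1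
  · have e2 : [R] ++ [H1.ch (q + 1)] = comps U ++ [oo] := by
      rw [← e1]; simp only [H1.W, comps_node, comps]; rfl
    exact absurd (las e2).2 (ch_oo _)
  · have e2 : [H1.ch q] ++ [.nil △ R] = comps U ++ [oo] := by
      rw [← e1]; simp only [H1.W, comps_app, comps_node, comps, comps_chs]
    exact absurd (H1.node_inj (las e2).2).2 h.R1
  · have e2 : [H1.ch q, .nil] ++ [R] = comps U ++ [oo] := by
      rw [← e1]; simp only [H1.W, comps_app, comps_node, comps, comps_chs]; rfl
    exact absurd (las e2).2 h.R2
  · have e2 : [R △ .nil] ++ [H1.ch q] = comps U ++ [oo] := by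
      rw [← e1]; simp only [H1.W, comps_node, comps, comps_chs]; rfl
    exact absurd (las e2).2 (ch_oo _)
  · have e2 : (comps B ++ (H1.ch (q + 1) △ .nil) :: S') ++ [s] = comps U ++ [oo] := by
      rw [← e1]; simp only [H1.W, comps_app, comps_node, hs]; simp
    exact absurd (las e2).2 s1
  · have e2 : (comps B ++ .nil :: H1.ch q :: .nil :: S') ++ [s] = comps U ++ [oo] := by
      rw [← e1]; simp only [H1.W, comps_app, comps_node, comps_chs, hs]; simp
    exact absurd (las e2).2 s1
  · have e2 : (S :: comps B ++ [.nil]) ++ [H1.ch q] = comps U ++ [oo] := by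
      rw [← e1]; simp only [H1.W, comps_app, comps_node, comps_chs]; simp
    exact absurd (las e2).2 (ch_oo _)
  · have e2 : comps S ++ [app B (.nil △ H1.ch (q + 1))] = comps U ++ [oo] := by
      rw [← e1]; simp only [H1.W, comps_app, comps_node, comps]
    obtain ⟨e3, e4⟩ := las e2
    have e5 := congrArg comps e4
    rw [comps_app, comps_node, comps_chs, comps_oo] at e5
    have hB : comps B = [] := by
      cases hb : comps B with
      | nil => rfl
      | cons a l =>
        rw [hb] at e5
        have := congrArg List.length e5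
        simp at this
    rw [hB, List.nil_append, List.cons.injEq] at e5
    have hq : H1.ch q = .nil := by simpa using e5.2
    refine ⟨rfl, ?_, comps_inj hB, comps_inj e3⟩
    cases q with
    | zero => rfl
    | succ q => exact absurd hq (by simp [H1.ch])
  · cases hb : comps B with
    | nil =>
      simp only [H1.W, comps_node, hb] at e1
      exact absurd (one e1) (by simp)
    | cons a l =>
      obtain ⟨L, b, hL⟩ : ∃ L b, comps B = L ++ [b] :=
        ⟨_, _, (List.dropLast_append_getLast (by rw [hb]; simp)).symm⟩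
      have e2 : (app (H1.ch (q + 1)) (.nil △ S) :: L) ++ [b] = comps U ++ [oo] := by
        rw [← e1]; simp only [H1.W, comps_node, hL]; simp
      obtain ⟨_, rfl⟩ := las e2
      exact absurd hL (h.lB _)
  · cases hb : comps B with
    | nil =>
      have e2 : [H1.ch (q + 1)] ++ [S] = comps U ++ [oo] := by
        rw [← e1]; simp only [H1.W, comps_node, hb]; rfl
      exact absurd (las e2).2 h.S2
    | cons a l =>
      obtain ⟨L, b, hL⟩ : ∃ L b, comps B = L ++ [b] :=
        ⟨_, _, (List.dropLast_append_getLast (by rw [hb]; simp)).symm⟩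
      have e2 : (H1.ch (q + 1) :: S :: L) ++ [b] = comps U ++ [oo] := by
        rw [← e1]; simp only [H1.W, comps_node, hL]; simp
      obtain ⟨_, rfl⟩ := las e2
      exact absurd hL (h.lB _)
  · have e2 : (comps S ++ [B]) ++ [H1.ch (q + 1)] = comps U ++ [oo] := by
      rw [← e1]; simp only [H1.W, comps_app, comps_node, comps]; simp
    exact absurd (las e2).2 (ch_oo _)
  · have e2 : [H1.ch q] ++ [S △ B] = comps U ++ [oo] := by
      rw [← e1]; simp only [H1.W, comps_app, comps_node, comps, comps_chs]
    exact absurd (H1.node_inj (las e2).2).1 h.S0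
  · have e2 : (H1.ch q :: .nil :: comps S) ++ [B] = comps U ++ [oo] := by
      rw [← e1]; simp only [H1.W, comps_app, comps_node, comps, comps_chs]; simp
    exact absurd (las e2).2 h.B2
  · have e2 : [app S (B △ .nil)] ++ [H1.ch q] = comps U ++ [oo] := by
      rw [← e1]; simp only [H1.W, comps_node, comps, comps_chs]; rfl
    exact absurd (las e2).2 (ch_oo _)

/-! ### The facts for bead free windows -/

theorem one_mem : ∀ {T : BinaryTree Unit}, oo ∈ comps T → 1 ∈ cont T := by
  intro T
  induction T with
  | nil => intro h; cases h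
  | node u A Y _ ih =>
    intro h
    cases u
    have h' : oo ∈ A :: comps Y := h
    change 1 ∈ cont (A △ Y)
    rw [cont_node, Multiset.mem_add]
    rcases List.mem_cons.1 h' with rfl | h1
    · left
      have e : cont oo = {1} + {1} := rfl
      rw [e]
      decide
    · exact Or.inr (ih h1)

theorem Pw.of (hR : R ≠ .nil) (hS : S ≠ .nil) (h1 : 1 ∉ cont R) (h2 : 1 ∉ cont B) (h3 : 1 ∉ cont S) :
    Pw R B S := by
  have k1 : (1 : ℕ) ∈ cont (.nil △ .nil) := by decide
  have k2 : (1 : ℕ) ∈ cont oo := by decide
  have f : ∀ {T : BinaryTree Unit}, 1 ∉ cont T → ∀ Y, comps T ≠ oo :: Y := by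
    intro T hT Y e
    exact hT (one_mem (by rw [e]; simp))
  have l : ∀ {T : BinaryTree Unit}, 1 ∉ cont T → ∀ Y, comps T ≠ Y ++ [oo] := by
    intro T hT Y e
    exact hT (one_mem (by rw [e]; simp))
  refine ⟨hR, hS, ?_, ?_, ?_, ?_, ?_, f h1, f h2, f h3, l h1, l h2, l h3⟩
  · rintro rfl; exact h1 k1
  · rintro rfl; exact h3 k1
  · rintro rfl; exact h1 k2
  · rintro rfl; exact h3 k2
  · rintro rfl; exact h2 k2

theorem pwM (h : HM.NodeM k q R B S) : Pw R B S := by
  have h1 : 1 ∉ cont R := fun e => by have := h.part 1 e; omega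
  have hc := h.eq
  refine Pw.of h.ne ?_ h1 ?_ ?_
  · rintro rfl
    have h2 := h.dat.htS
    have h3 := h.top
    have : ht (BinaryTree.nil : BinaryTree Unit) = 0 := rfl
    omega
  · intro e
    exact h1 (by rw [← hc, Multiset.mem_add]; exact Or.inl e)
  · intro e
    exact h1 (by rw [← hc, Multiset.mem_add]; exact Or.inr e)

/-! ### The facts for the windows of type A -/

theorem lastI_comps {T A : BinaryTree Unit} {L : List (BinaryTree Unit)} (h : comps T = L ++ [A]) :
    H1.lastI T = A := by
  induction T generalizing L with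
  | nil => simp [comps] at h
  | node u C Y _ ih =>
    cases hY : Y with
    | nil =>
      rw [hY] at h
      have h' : [C] = L ++ [A] := h
      cases L with
      | nil => rw [List.nil_append, List.cons.injEq] at h'; exact h'.1
      | cons a l => rw [List.cons_append, List.cons.injEq] at h'; simp at h'
    | node v D E =>
      rw [← hY]
      have h' : C :: comps Y = L ++ [A] := h
      cases L with
      | nil =>
        rw [List.nil_append, List.cons.injEq] at h'
        exact absurd h'.2 (comps_ne (by rw [hY]; simp))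
      | cons a l =>
        rw [List.cons_append, List.cons.injEq] at h'
        change H1.lastI (C △ Y) = A
        rw [H1.lastI_cons (by rw [hY]; simp)]
        exact ih h'.2

theorem gd_oo {A : BinaryTree Unit} (h : H1.gd A) : A ≠ oo := by
  rintro rfl
  rcases h with h | ⟨-, h⟩
  · exact absurd (H1.node_inj h).1 (by simp)
  · exact H1.gd_ne h.1 rfl

theorem hv_mem : ∀ {T : BinaryTree Unit}, H1.hv T → ∀ A ∈ comps T, H1.gd A := by
  intro T
  induction T with
  | nil => intro _ A h; cases h
  | node u C Y _ ih =>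
    intro h A hA
    have hA' : A ∈ C :: comps Y := hA
    rcases List.mem_cons.1 hA' with rfl | h1
    · exact h.1
    · exact ih h.2 A h1

theorem sq_last_oo {B1 H s B : BinaryTree Unit} (hB1 : H1.hv B1) (hs : H1.hv s) (hs0 : s ≠ .nil)
    (hH : H1.bl H = true) (ht1 : Tsq.ht B1 < Tsq.ht s + 1) (ht2 : Tsq.ht B ≤ Tsq.ht s + 1) :
    H1.lastI (Tsq.sq (app B1 (app H s △ B))).1 ≠ oo := by
  have hH2 := H1.bl_ht hH
  have hs3 := H1.hv_ht hs hs0
  obtain ⟨X, Y, g, g1, g2, g3⟩ := H1.sq_hv hs hs0
  have e1 : Tsq.ht (app H s) = Tsq.ht s := by rw [Tsq.ht_app]; omega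
  have e2 : Tsq.sq (app H s) = (app H X △ Y, (Tsq.sq s).2) := by
    rw [Tsq.sq_pre H s (by omega), g.e]
    rfl
  have e3 : Tsq.sq (app H s △ B) = ((app H X △ Y) △ (Tsq.sq s).2, B) := by
    rw [Tsq.sq_ge (H1.app_ne hs0) (by omega), e2]
  have e4 : Tsq.sq (app B1 (app H s △ B)) = (app B1 (app H X △ Y) △ (Tsq.sq s).2, B) := by
    rw [Tsq.sq_pre B1 _ (by rw [Tsq.ht_node]; omega), e3]
    rfl
  rw [e4]
  have hv2 := H1.hv_sq2 hs hs0
  cases hb : (Tsq.sq s).2 with
  | nil =>
    change app B1 (app H X △ Y) ≠ _
    intro h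
    have hn : app H X ≠ .nil := H1.app_ne g.X0
    cases B1 with
    | nil => exact hn (H1.node_inj h).1
    | node _ C D =>
      have h1 := hB1.1
      exact H1.gd_ne h1 (H1.node_inj h).1
  | node _ C D =>
    change H1.lastI (_ △ (C △ D)) ≠ _
    rw [H1.lastI_cons (by simp)]
    rw [hb] at hv2
    exact gd_oo (H1.hv_lastI hv2 (by simp))

theorem pwG {B1 H s B : BinaryTree Unit} (h : H1.NodeG k q B1 H s B) :
    Pw (H1.gR B1 H s B) B (Tsq.sq (H1.gR B1 H s B)).1 := by
  have w := h.wd
  have fbo : H1.fb oo = true := rfl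
  have fb1 : H1.fb (.nil △ .nil) = true := rfl
  have ne : ∀ {T A : BinaryTree Unit}, H1.fb T = false → H1.fb A = true → T ≠ A := by
    rintro T A h1 h2 rfl
    rw [h1] at h2
    exact absurd h2 (by simp)
  have hB : ∀ A ∈ comps B, A ≠ oo := fun A hA => gd_oo (hv_mem h.hB A hA)
  have fh2 : ∀ {T : BinaryTree Unit}, 2 ≤ H1.fh T → ∀ Y, comps T ≠ oo :: Y := by
    intro T hT Y e
    cases T with
    | nil => cases e
    | node u C D =>
      have e' : C :: comps D = oo :: Y := e
      rw [List.cons.injEq] at e'
      have e2 : H1.fh (C △ D) = 1 := by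
        rw [e'.1, H1.fh_node (by simp)]
        rfl
      have : H1.fh (BinaryTree.node u C D) = H1.fh (C △ D) := rfl
      omega
  have hfR : 2 ≤ H1.fh (H1.gR B1 H s B) := by
    unfold H1.gR
    cases hb : B1 with
    | nil =>
      rw [app, H1.fh_node (H1.app_ne h.s0), h.P_ht]
      have := h.hs3
      omega
    | node u C D =>
      have v1 := h.h1
      rw [hb] at v1
      have hC := H1.gd_ne v1.1
      change 2 ≤ H1.fh (C △ app D _)
      rw [H1.fh_node hC]
      rcases v1.1 with rfl | ⟨h5, h6⟩
      · rw [OddHC.ht, OddHC.ht, OddHC.ht]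
        omega
      · rw [← H1.ht_eq]
        have := H1.hv_ht h6 h5
        omega
  refine ⟨w.R0, w.S0, ne w.fR fb1, ne w.fS fb1, ne w.fR fbo, ne w.fS fbo, ?_, fh2 hfR, ?_,
    fh2 h.fS, ?_, ?_, ?_⟩
  · cases hb : B with
    | nil => simp
    | node _ C D => rw [← hb]; exact ne w.fB fbo
  · intro Y e
    exact hB oo (by rw [e]; simp) rfl
  · intro Y e
    unfold H1.gR at e
    rw [comps_app, comps_node] at e
    cases hb : comps B with
    | nil =>
      rw [hb] at e
      have := (List.append_inj' e rfl).2
      rw [List.cons.injEq] at this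
      have e2 := congrArg comps this.1
      rw [comps_app, comps_oo] at e2
      obtain ⟨a, l, hs⟩ : ∃ a l, comps s = a :: l := List.exists_cons_of_ne_nil (comps_ne h.s0)
      have h3 : a ∈ comps H ++ comps s := by rw [hs]; simp
      rw [e2] at h3
      have h4 : a = .nil := by simpa using h3
      exact H1.gd_ne (hv_mem h.hs a (by rw [hs]; simp)) h4
    | cons a l =>
      obtain ⟨L, b, hL⟩ : ∃ L b, comps B = L ++ [b] :=
        ⟨_, _, (List.dropLast_append_getLast (by rw [hb]; simp)).symm⟩
      have e2 : (comps B1 ++ app H s :: L) ++ [b] = Y ++ [oo] := by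
        rw [← e, hL]; simp
      have := (List.append_inj' e2 rfl).2
      rw [List.cons.injEq] at this
      exact hB b (by rw [hL]; simp) this.1
  · intro Y e
    exact hB oo (by rw [e]; simp) rfl
  · intro Y e
    exact sq_last_oo h.h1 h.hs h.s0 h.light (by rw [H1.ht_eq, H1.ht_eq]; exact h.low)
      (by rw [H1.ht_eq, H1.ht_eq]; exact h.top) (lastI_comps e)

end P5W

end Pool.OddHC
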